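import Mathlib

set_option autoImplicit false

namespace Pool.Agent.Lead.AgreeEx

/-- the ten comparable pairs `x < y` of a seven-element poset -/
def prs : List (Fin 7 × Fin 7) :=
  [(0, 3), (0, 4), (1, 4), (2, 4), (0, 5), (1, 5), (3, 5), (0, 6), (2, 6), (3, 6)]

def ltb (x y : Fin 7) : Bool := prs.contains (x, y)

def agreeB (f : Equiv.Perm (Fin 7)) : ℕ :=
  (prs.map (fun p => if (f p.1).val < (f p.2).val then 1 else 0)).sum

/-- weights used to count two values at once -/
def g (n : ℕ) : ℕ := if n = 5 then 1 else if n = 4 then 10000 else 0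

/-- agreements read off from the list of positions -/
def agreeN : List ℕ → ℕ
  | [a, b, c, d, e, f, g] => (Nat.ble (a+1) d).toNat + (Nat.ble (a+1) e).toNat +
      (Nat.ble (b+1) e).toNat + (Nat.ble (c+1) e).toNat + (Nat.ble (a+1) f).toNat +
      (Nat.ble (b+1) f).toNat + (Nat.ble (d+1) f).toNat + (Nat.ble (a+1) g).toNat +
      (Nat.ble (c+1) g).toNat + (Nat.ble (d+1) g).toNat
  | _ => 0

def gN (n : ℕ) : ℕ := bif Nat.beq n 5 then 1 else bif Nat.beq n 4 then 10000 else 0

lemma gN_eq (n : ℕ) : gN n = g n := by
  unfold gN g
  by_cases h5 : n = 5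
  · subst h5; rfl
  · by_cases h4 : n = 4
    · subst h4; rfl
    · have e5 : Nat.beq n 5 = false := by
        rw [Bool.eq_false_iff]
        intro h
        exact h5 (Nat.eq_of_beq_eq_true h)
      have e4 : Nat.beq n 4 = false := by
        rw [Bool.eq_false_iff]
        intro h
        exact h4 (Nat.eq_of_beq_eq_true h)
      rw [e5, e4, if_neg h5, if_neg h4]
      rfl

lemma ite_eq (a b : ℕ) : (if a < b then 1 else 0) = (Nat.ble (a + 1) b).toNat := by
  by_cases h : a < b
  · rw [if_pos h, Nat.ble_eq_true_of_le h]
    rfl
  · rw [if_neg h]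
    have : Nat.ble (a + 1) b = false := by
      rw [Bool.eq_false_iff]
      intro h2
      exact h (Nat.le_of_ble_eq_true h2)
    rw [this]
    rfl

lemma agreeN_ofFn (f : Equiv.Perm (Fin 7)) :
    agreeN ((List.ofFn f).map Fin.val) = agreeB f := by
  have h : (List.ofFn f).map Fin.val = [(f 0).val, (f 1).val, (f 2).val, (f 3).val, (f 4).val,
      (f 5).val, (f 6).val] := by
    simp [List.ofFn_succ]
  rw [h]
  unfold agreeB prs agreeN
  simp only [List.map_cons, List.map_nil, List.sum_cons, List.sum_nil, ite_eq]
  ring

/-- sum of `h` over all permutations of a list, computed recursively -/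
def S {α : Type} : List α → (List α → ℕ) → ℕ
  | [], h => h []
  | t :: ts, h => S ts (fun l => ((List.permutations'Aux t l).map h).sum)

lemma flat_sum {α : Type} (l : List (List α)) (F : List α → List (List α))
    (h : List α → ℕ) :
    ((l.flatMap F).map h).sum = (l.map (fun x => ((F x).map h).sum)).sum := by
  induction l with
  | nil => rfl
  | cons a t ih => rw [List.flatMap_cons, List.map_append, List.sum_append, ih, List.map_cons,
      List.sum_cons]

lemma S_eq {α : Type} (ts : List α) (h : List α → ℕ) :
    S ts h = ((List.permutations' ts).map h).sum := by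
  induction ts generalizing h with
  | nil => simp [S, List.permutations']
  | cons t ts ih =>
    rw [S, ih, List.permutations', flat_sum]

lemma sum_perm (h : List (Fin 7) → ℕ) :
    ∑ f : Equiv.Perm (Fin 7), h (List.ofFn f) =
      ((List.permutations' (List.finRange 7)).map h).sum := by
  have hnd : (List.permutations' (List.finRange 7)).Nodup :=
    ((List.permutations_perm_permutations' _).nodup_iff).1
      (List.nodup_permutations _ (List.nodup_finRange 7))
  rw [← List.sum_toFinset h hnd]
  apply Finset.sum_bij (fun (f : Equiv.Perm (Fin 7)) _ => List.ofFn f)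
  · intro f _
    rw [List.mem_toFinset, List.mem_permutations']
    rw [List.perm_ext_iff_of_nodup (List.nodup_ofFn.2 f.injective) (List.nodup_finRange 7)]
    intro x
    simp only [List.mem_ofFn, List.mem_finRange, iff_true]
    exact ⟨f.symm x, by simp⟩
  · intro f _ f' _ hff
    have := List.ofFn_injective hff
    exact Equiv.coe_fn_injective this
  · intro l hl
    rw [List.mem_toFinset, List.mem_permutations'] at hl
    have hlen : l.length = 7 := by rw [hl.length_eq]; simp
    have hn : l.Nodup := hl.nodup_iff.2 (List.nodup_finRange 7)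
    have hinj : Function.Injective (fun i : Fin 7 => l.get (Fin.cast hlen.symm i)) := by
      intro i j hij
      have := (List.nodup_iff_injective_get.1 hn) hij
      simpa using this
    refine ⟨Equiv.ofBijective _ (Finite.injective_iff_bijective.1 hinj), Finset.mem_univ _, ?_⟩
    apply List.ext_getElem
    · simp [hlen]
    · intro i h1 h2
      have h3 : i < 7 := hlen ▸ h2
      simp
      interval_cases i <;> rfl
  · intro f _
    rfl

lemma total' : S [0, 1, 2, 3, 4, 5, 6] (fun l => gN (agreeN l)) = 7920764 := by decide +kernel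

lemma total : ∑ f : Equiv.Perm (Fin 7), g (agreeB f) = 7920764 := by
  have h1 : ∑ f : Equiv.Perm (Fin 7), g (agreeB f) =
      ∑ f : Equiv.Perm (Fin 7), (fun l : List (Fin 7) => gN (agreeN (l.map Fin.val)))
        (List.ofFn f) := by
    apply Finset.sum_congr rfl
    intro f _
    simp only [agreeN_ofFn, gN_eq]
  refine h1.trans ((sum_perm (fun l : List (Fin 7) => gN (agreeN (l.map Fin.val)))).trans ?_)
  rw [← total', S_eq]
  have h2 : ([0, 1, 2, 3, 4, 5, 6] : List ℕ) = (List.finRange 7).map Fin.val := by decide
  rw [h2, ← List.map_permutations', List.map_map]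
  rfl

lemma card_le (P : Equiv.Perm (Fin 7) → Prop) [DecidablePred P] :
    (Finset.univ.filter P).card ≤ 5040 := by
  refine le_trans (Finset.card_filter_le _ _) ?_
  rw [Finset.card_univ, Fintype.card_perm, Fintype.card_fin]
  norm_num [Nat.factorial]

lemma split (F : Equiv.Perm (Fin 7) → ℕ) : ∑ f : Equiv.Perm (Fin 7), g (F f) =
      (Finset.univ.filter (fun f : Equiv.Perm (Fin 7) => F f = 5)).card +
      10000 * (Finset.univ.filter (fun f : Equiv.Perm (Fin 7) => F f = 4)).card := by
  rw [Finset.card_filter, Finset.card_filter, Finset.mul_sum, ← Finset.sum_add_distrib]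
  apply Finset.sum_congr rfl
  intro f _
  unfold g
  by_cases h5 : F f = 5
  · simp [h5]
  · by_cases h4 : F f = 4
    · simp [h4]
    · simp [h4, h5]

lemma arith (s a b : ℕ) (h : s = a + 10000 * b) (h2 : s = 7920764) (h3 : a ≤ 5040) :
    a = 764 ∧ b = 792 := by
  omega

lemma counts : (Finset.univ.filter (fun f : Equiv.Perm (Fin 7) => agreeB f = 5)).card = 764 ∧
    (Finset.univ.filter (fun f : Equiv.Perm (Fin 7) => agreeB f = 4)).card = 792 :=
  arith _ _ _ (split agreeB) total (card_le _)

lemma agree_rev (f : Equiv.Perm (Fin 7)) : agreeB (f.trans Fin.revPerm) + agreeB f = 10 := by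
  have key : ∀ l : List (Fin 7 × Fin 7), (∀ p ∈ l, p.1 ≠ p.2) →
      (l.map (fun p => if ((f.trans Fin.revPerm) p.1).val < ((f.trans Fin.revPerm) p.2).val
        then 1 else 0)).sum +
      (l.map (fun p => if (f p.1).val < (f p.2).val then 1 else 0)).sum = l.length := by
    intro l
    induction l with
    | nil => intro _; rfl
    | cons p l ih =>
      intro h
      have h1 := ih (fun q hq => h q (by simp [hq]))
      have h2 : (f p.1).val ≠ (f p.2).val := by
        intro h3
        exact h p (by simp) (f.injective (Fin.ext h3))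
      simp only [List.map_cons, List.sum_cons, List.length_cons]
      have h3 : (if ((f.trans Fin.revPerm) p.1).val < ((f.trans Fin.revPerm) p.2).val
          then 1 else 0) + (if (f p.1).val < (f p.2).val then 1 else 0) = 1 := by
        simp only [Equiv.trans_apply, Fin.revPerm_apply, Fin.val_rev]
        have := (f p.1).2
        have := (f p.2).2
        split_ifs <;> omega
      omega
  exact key prs (by decide)

lemma count6 : (Finset.univ.filter (fun f : Equiv.Perm (Fin 7) => agreeB f = 6)).card = 792 := by
  rw [← counts.2]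
  apply Finset.card_bij (fun f _ => f.trans Fin.revPerm)
  · intro f hf
    rw [Finset.mem_filter] at hf ⊢
    refine ⟨Finset.mem_univ _, ?_⟩
    have := agree_rev f
    omega
  · intro f _ f' _ h
    have := congrArg (fun e => Equiv.trans e Fin.revPerm) h
    ext x
    have h1 := congrArg (fun e : Equiv.Perm (Fin 7) => e x) this
    simp only [Equiv.trans_apply, Fin.revPerm_apply, Fin.rev_rev] at h1
    rw [h1]
  · intro f hf
    rw [Finset.mem_filter] at hf
    refine ⟨f.trans Fin.revPerm, ?_, ?_⟩
    · rw [Finset.mem_filter]
      refine ⟨Finset.mem_univ _, ?_⟩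
      have := agree_rev f
      omega
    · ext x
      simp only [Equiv.trans_apply, Fin.revPerm_apply, Fin.rev_rev]

end Pool.Agent.Lead.AgreeEx
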