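import Mathlib

set_option autoImplicit false

namespace Pool.Agent.Lead.BinMatroid

open Set

variable {W : Type} [AddCommGroup W] [Module (ZMod 2) W]

/-- augmentation for linear independence -/
lemma aug {K V ι : Type} [Finite ι] [Field K] [AddCommGroup V] [Module K V] (v : ι → V)
    {I J : Set ι} (hI : LinearIndepOn K v I) (hJ : LinearIndepOn K v J)
    (h : I.ncard < J.ncard) : ∃ e ∈ J, e ∉ I ∧ LinearIndepOn K v (insert e I) := by
  by_contra hcon
  push Not at hcon
  have hsub : ∀ e ∈ J, v e ∈ Submodule.span K (v '' I) := by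
    intro e he
    by_cases heI : e ∈ I
    · exact Submodule.subset_span ⟨e, heI, rfl⟩
    · have h1 := hcon e he heI
      rw [linearIndepOn_insert heI] at h1
      by_contra h2
      exact h1 ⟨hI, h2⟩
  have hfin : (v '' I).Finite := I.toFinite.image v
  have : FiniteDimensional K (Submodule.span K (v '' I)) := FiniteDimensional.span_of_finite K hfin
  have e1 : Module.finrank K (Submodule.span K (v '' J)) ≤
      Module.finrank K (Submodule.span K (v '' I)) := by
    apply Submodule.finrank_mono
    rw [Submodule.span_le]
    rintro _ ⟨e, he, rfl⟩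
    exact hsub e he
  have d : ∀ S : Set ι, LinearIndepOn K v S →
      Module.finrank K (Submodule.span K (v '' S)) = S.ncard := by
    intro S hS
    have : Fintype S := Fintype.ofFinite S
    have h1 := finrank_span_eq_card (R := K) (b := fun x : S => v x) hS
    have h2 : v '' S = range (fun x : S => v x) := by rw [image_eq_range]
    rw [h2, h1, ← Nat.card_coe_set_eq, Nat.card_eq_fintype_card]
  rw [d I hI, d J hJ] at e1
  omega

/-- the matroid represented by a vector configuration -/
def vecMatroid (K : Type) {V ι : Type} [Finite ι] [Field K] [AddCommGroup V] [Module K V]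
    (v : ι → V) : Matroid ι :=
  (IndepMatroid.ofFinite (E := (univ : Set ι)) finite_univ (fun I => LinearIndepOn K v I)
    (linearIndepOn_empty K v) (fun _ _ hJ hIJ => hJ.mono hIJ)
    (fun _ _ hI hJ h => aug v hI hJ h) (fun _ _ => subset_univ _)).matroid

lemma vecMatroid_E (K : Type) {V ι : Type} [Finite ι] [Field K] [AddCommGroup V] [Module K V]
    (v : ι → V) : (vecMatroid K v).E = univ := rfl

lemma vecMatroid_indep (K : Type) {V ι : Type} [Finite ι] [Field K] [AddCommGroup V] [Module K V]
    (v : ι → V) (I : Set ι) : (vecMatroid K v).Indep I ↔ LinearIndepOn K v I := Iff.rfl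

/-- binary linear independence -/
lemma indep_iff {ι : Type} (v : ι → W) (I : Set ι) :
    LinearIndepOn (ZMod 2) v I ↔ ∀ T : Finset ι, (T : Set ι) ⊆ I → T.Nonempty →
      ∑ x ∈ T, v x ≠ 0 := by
  classical
  rw [linearIndepOn_iff']
  constructor
  · intro h T hT hne h0
    obtain ⟨x, hx⟩ := hne
    have := h T (fun _ => 1) hT (by simpa using h0) x hx
    exact one_ne_zero this
  · intro h t g ht hg i hi
    by_contra hne
    have h1 : ∀ c : ZMod 2, c ≠ 0 → c = 1 := by decide
    refine h (t.filter (fun x => g x ≠ 0)) ?_ ⟨i, by simp [hi, hne]⟩ ?_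
    · intro x hx
      exact ht (Finset.mem_of_mem_filter x hx)
    · have h2 : ∑ x ∈ t, (if g x ≠ 0 then v x else 0) = ∑ i ∈ t, g i • v i := by
        apply Finset.sum_congr rfl
        intro x _
        by_cases hx : g x = 0
        · simp [hx]
        · rw [if_pos hx, h1 _ hx, one_smul]
      rw [Finset.sum_filter, h2, hg]

end Pool.Agent.Lead.BinMatroid
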