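import Mathlib

set_option autoImplicit false

namespace Pool.Agent.Lead.MatroidChi

open Set Polynomial

/-- `M` is a geometry on the whole (finite) type `α`: every set with at most two elements is
independent, i.e. there are no loops (`a = b`) and no parallel pairs (`a ≠ b`). -/
structure IsGeometry {α : Type} (M : Matroid α) : Prop where
  ground : M.E = univ
  simple : ∀ a b : α, M.Indep {a, b}

/-- `M` is binary: represented over `GF(2)` by vectors `v a`. -/
def IsBinary {α : Type} (M : Matroid α) : Prop :=
  ∃ (n : ℕ) (v : α → (Fin n → ZMod 2)), ∀ I : Set α, M.Indep I ↔ LinearIndepOn (ZMod 2) v I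

/-- rank of a set, as a natural number -/
noncomputable def rk {α : Type} (M : Matroid α) (X : Set α) : ℕ := (M.eRk X).toNat

/-- the flats of `M`, ordered by inclusion -/
abbrev Flats {α : Type} (M : Matroid α) := {F : Set α // M.IsFlat F}

open Classical in
/-- Möbius function `μ(0̂, X)` of the lattice of flats (Mathlib's incidence algebra `mu`), where
`0̂` is the least flat, the closure of the empty set. -/
noncomputable def mobius {α : Type} [Finite α] (M : Matroid α) (X : Flats M) : ℤ :=
  letI : Fintype (Flats M) := Fintype.ofFinite _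
  letI : LocallyFiniteOrder (Flats M) := Fintype.toLocallyFiniteOrder
  IncidenceAlgebra.mu ℤ (⟨M.closure ∅, M.isFlat_closure ∅⟩ : Flats M) X

/-- the characteristic polynomial `∑_{X flat} μ(0̂, X) λ^(n - r(X))`, `n` the rank of `M` -/
noncomputable def charPoly {α : Type} [Finite α] (M : Matroid α) : ℤ[X] :=
  ∑ᶠ F : Flats M, C (mobius M F) * X ^ (rk M M.E - rk M F.1)

/-- `X` is a modular flat: `r(X) + r(Y) = r(X ∨ Y) + r(X ∧ Y)` for every flat `Y`; the join of two
flats is the closure of their union, the meet is their intersection. -/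
def IsModularFlat {α : Type} (M : Matroid α) (X : Set α) : Prop :=
  M.IsFlat X ∧ ∀ Y : Set α, M.IsFlat Y → rk M X + rk M Y = rk M (M.closure (X ∪ Y)) + rk M (X ∩ Y)

/-- `M`, of rank `n`, is supersolvable: there is a maximal chain
`0̂ = X 0 ⊂ X 1 ⊂ ⋯ ⊂ X n = M.E` of modular flats. -/
def IsSupersolvable {α : Type} (M : Matroid α) : Prop :=
  ∃ X : ℕ → Set α, X 0 = M.closure ∅ ∧ X (rk M M.E) = M.E ∧
    (∀ i < rk M M.E, X i ⊂ X (i + 1)) ∧ ∀ i ≤ rk M M.E, IsModularFlat M (X i)

end Pool.Agent.Lead.MatroidChi
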