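import Mathlib
import Pool.Agent.Lead.BinMatroid
import Pool.Agent.Lead.MatroidChiDefs

set_option autoImplicit false

namespace Pool.Agent.Lead.MatroidChi

open Set Polynomial Pool.Agent.Lead.BinMatroid

/-! ### general lemmas -/

section general

variable {α : Type} [Finite α] (M : Matroid α)

lemma mobius_bot (F : Flats M) (h : F.1 = M.closure ∅) : mobius M F = 1 := by
  classical
  obtain ⟨F, hF⟩ := F
  simp only at h
  subst h
  unfold mobius
  simp

lemma bot_le (F : Flats M) : (⟨M.closure ∅, M.isFlat_closure ∅⟩ : Flats M) ≤ F := by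
  change M.closure ∅ ⊆ F.1
  have := F.2.closure
  rw [← this]
  exact M.closure_subset_closure (empty_subset _)

open Classical in
lemma sum_mobius [hft : Fintype (Flats M)] (F : Flats M) :
    ∑ Y : Flats M, (if Y.1 ⊆ F.1 then mobius M Y else 0) = if F.1 = M.closure ∅ then 1 else 0 := by
  have hft2 : hft = Fintype.ofFinite _ := Subsingleton.elim _ _
  subst hft2
  letI : Fintype (Flats M) := Fintype.ofFinite _
  letI : LocallyFiniteOrder (Flats M) := Fintype.toLocallyFiniteOrder
  have h := IncidenceAlgebra.sum_Icc_mu_right (𝕜 := ℤ)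
    (⟨M.closure ∅, M.isFlat_closure ∅⟩ : Flats M) F
  rw [← Finset.sum_filter]
  have h1 : (Finset.univ.filter (fun Y : Flats M => Y.1 ⊆ F.1)) =
      Finset.Icc (⟨M.closure ∅, M.isFlat_closure ∅⟩ : Flats M) F := by
    ext Y
    simp only [Finset.mem_filter, Finset.mem_univ, true_and, Finset.mem_Icc]
    constructor
    · intro hY
      exact ⟨bot_le M Y, hY⟩
    · intro hY
      exact hY.2
  rw [h1]
  have h2 : ∀ Y : Flats M, mobius M Y =
      IncidenceAlgebra.mu ℤ (⟨M.closure ∅, M.isFlat_closure ∅⟩ : Flats M) Y := by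
    intro Y
    rfl
  simp_rw [h2]
  rw [h]
  congr 1
  rw [Subtype.ext_iff]
  exact propext ⟨fun h => h.symm, fun h => h.symm⟩

end general

/-! ### represented matroids -/

section vec

variable {K V α : Type} [Finite α] [Field K] [AddCommGroup V] [Module K V] (v : α → V)

lemma span_basis {I X : Set α} (h : (vecMatroid K v).IsBasis' I X) :
    Submodule.span K (v '' I) = Submodule.span K (v '' X) := by
  apply le_antisymm
  · exact Submodule.span_mono (image_mono h.subset)
  · rw [Submodule.span_le]
    rintro _ ⟨e, he, rfl⟩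
    by_cases heI : e ∈ I
    · exact Submodule.subset_span ⟨e, heI, rfl⟩
    · by_contra h2
      have h1 : (vecMatroid K v).Indep (insert e I) := by
        rw [vecMatroid_indep, linearIndepOn_insert heI]
        exact ⟨h.indep, h2⟩
      exact heI (h.mem_of_insert_indep he h1)

lemma eRk_eq (X : Set α) :
    (vecMatroid K v).eRk X = (Module.finrank K (Submodule.span K (v '' X)) : ℕ∞) := by
  obtain ⟨I, hI⟩ := (vecMatroid K v).exists_isBasis' X
  rw [← hI.encard_eq_eRk, ← span_basis v hI]
  have hS : LinearIndepOn K v I := hI.indep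
  have : Fintype I := Fintype.ofFinite I
  have h1 := finrank_span_eq_card (R := K) (b := fun x : I => v x) hS
  have h2 : v '' I = range (fun x : I => v x) := by rw [image_eq_range]
  rw [h2, h1, ← Nat.card_eq_fintype_card, Nat.card_coe_set_eq, Set.Finite.cast_ncard_eq I.toFinite]

lemma rk_eq (X : Set α) :
    rk (vecMatroid K v) X = Module.finrank K (Submodule.span K (v '' X)) := by
  unfold rk
  rw [eRk_eq]
  simp

lemma mem_closure (X : Set α) (e : α) :
    e ∈ (vecMatroid K v).closure X ↔ v e ∈ Submodule.span K (v '' X) := by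
  obtain ⟨I, hI⟩ := (vecMatroid K v).exists_isBasis' X
  rw [← hI.closure_eq_closure, ← span_basis v hI]
  by_cases heI : e ∈ I
  · exact ⟨fun _ => Submodule.subset_span ⟨e, heI, rfl⟩, fun _ =>
      (vecMatroid K v).mem_closure_of_mem heI (subset_univ _)⟩
  · rw [hI.indep.mem_closure_iff_of_notMem heI, Matroid.dep_iff]
    rw [vecMatroid_indep, linearIndepOn_insert heI]
    constructor
    · intro h
      by_contra h2
      exact h.1 ⟨hI.indep, h2⟩
    · intro h
      exact ⟨fun h2 => h2.2 h, subset_univ _⟩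

lemma isFlat_preimage (W : Submodule K V) : (vecMatroid K v).IsFlat {e | v e ∈ W} := by
  rw [Matroid.isFlat_iff_closure_eq]
  apply le_antisymm
  · intro e he
    rw [mem_closure] at he
    have : Submodule.span K (v '' {e | v e ∈ W}) ≤ W := by
      rw [Submodule.span_le]
      rintro _ ⟨x, hx, rfl⟩
      exact hx
    exact this he
  · exact (vecMatroid K v).subset_closure _ (subset_univ _)

lemma closure_empty (h0 : ∀ e, v e ≠ 0) : (vecMatroid K v).closure ∅ = ∅ := by
  apply eq_empty_of_forall_notMem
  intro e he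
  rw [mem_closure] at he
  simp only [image_empty, Submodule.span_empty, Submodule.mem_bot] at he
  exact h0 e he

end vec

section binary

variable {V α : Type} [Finite α] [AddCommGroup V] [Module (ZMod 2) V]
  [FiniteDimensional (ZMod 2) V] (v : α → V)

lemma card_vanish (k : ℕ) (X : Set α) :
    Nat.card {f : Fin k → Module.Dual (ZMod 2) V // ∀ j, ∀ e ∈ X, f j (v e) = 0} =
      (2 ^ k) ^ (Module.finrank (ZMod 2) V -
        Module.finrank (ZMod 2) (Submodule.span (ZMod 2) (v '' X))) := by
  set W := Submodule.span (ZMod 2) (v '' X) with hW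
  have hiff : ∀ g : Module.Dual (ZMod 2) V, (∀ e ∈ X, g (v e) = 0) ↔ g ∈ W.dualAnnihilator := by
    intro g
    rw [Submodule.mem_dualAnnihilator]
    constructor
    · intro h w hw
      rw [hW] at hw
      induction hw using Submodule.span_induction with
      | mem x hx =>
        obtain ⟨e, he, rfl⟩ := hx
        exact h e he
      | zero => simp
      | add x y _ _ hx hy => rw [map_add, hx, hy, add_zero]
      | smul a x _ hx => rw [map_smul, hx, smul_zero]
    · intro h e he
      exact h _ (Submodule.subset_span ⟨e, he, rfl⟩)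
  have e1 : {f : Fin k → Module.Dual (ZMod 2) V // ∀ j, ∀ e ∈ X, f j (v e) = 0} ≃
      (Fin k → W.dualAnnihilator) :=
    { toFun := fun f j => ⟨f.1 j, (hiff _).1 (f.2 j)⟩
      invFun := fun f => ⟨fun j => (f j).1, fun j => (hiff _).2 (f j).2⟩
      left_inv := fun f => rfl
      right_inv := fun f => rfl }
  rw [Nat.card_congr e1, Nat.card_fun, Nat.card_fin,
    Module.natCard_eq_pow_finrank (K := ZMod 2) (V := W.dualAnnihilator)]
  have h2 := Subspace.finrank_add_finrank_dualAnnihilator_eq W
  have h3 : Module.finrank (ZMod 2) W.dualAnnihilator =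
      Module.finrank (ZMod 2) V - Module.finrank (ZMod 2) W := by omega
  rw [h3]
  simp only [Nat.card_zmod]
  rw [← pow_mul, ← pow_mul, mul_comm]

theorem eval_charPoly (h0 : ∀ e, v e ≠ 0) (hs : Submodule.span (ZMod 2) (range v) = ⊤) (k : ℕ) :
    (charPoly (vecMatroid (ZMod 2) v)).eval (2 ^ k : ℤ) =
      Nat.card {f : Fin k → Module.Dual (ZMod 2) V // ∀ e, ∃ j, f j (v e) ≠ 0} := by
  classical
  letI : Fintype (Flats (vecMatroid (ZMod 2) v)) := Fintype.ofFinite _
  haveI : Finite V := Module.finite_of_finite (ZMod 2)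
  haveI : Finite (Module.Dual (ZMod 2) V) := Module.finite_of_finite (ZMod 2)
  letI : Fintype (Fin k → Module.Dual (ZMod 2) V) := Fintype.ofFinite _
  have hn : rk (vecMatroid (ZMod 2) v) (vecMatroid (ZMod 2) v).E = Module.finrank (ZMod 2) V := by
    rw [rk_eq, vecMatroid_E, image_univ, hs, finrank_top]
  unfold charPoly
  rw [finsum_eq_sum_of_fintype, eval_finset_sum]
  simp only [eval_mul, eval_C, eval_pow, eval_X]
  have h1 : ∀ F : Flats (vecMatroid (ZMod 2) v),
      ((2 : ℤ) ^ k) ^ (rk (vecMatroid (ZMod 2) v) (vecMatroid (ZMod 2) v).E -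
        rk (vecMatroid (ZMod 2) v) F.1) =
      ∑ f : Fin k → Module.Dual (ZMod 2) V, if (∀ j, ∀ e ∈ F.1, f j (v e) = 0) then 1 else 0 := by
    intro F
    rw [hn, rk_eq]
    have := card_vanish v k F.1
    rw [Nat.card_eq_fintype_card, Fintype.card_subtype] at this
    rw [Finset.sum_boole, this]
    push_cast
    rfl
  simp_rw [h1, Finset.mul_sum]
  rw [Finset.sum_comm]
  have h2 : ∀ f : Fin k → Module.Dual (ZMod 2) V,
      (∑ F : Flats (vecMatroid (ZMod 2) v), mobius (vecMatroid (ZMod 2) v) F *
        (if (∀ j, ∀ e ∈ F.1, f j (v e) = 0) then 1 else 0)) =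
      if (∀ e, ∃ j, f j (v e) ≠ 0) then 1 else 0 := by
    intro f
    have hflat : (vecMatroid (ZMod 2) v).IsFlat {e | ∀ j, f j (v e) = 0} := by
      have := isFlat_preimage v (⨅ j, LinearMap.ker (f j))
      simpa [Submodule.mem_iInf] using this
    have := sum_mobius (vecMatroid (ZMod 2) v) ⟨_, hflat⟩
    rw [closure_empty v h0] at this
    simp only [mul_ite, mul_one, mul_zero]
    have e2 : ({e | ∀ j, f j (v e) = 0} = (∅ : Set α)) ↔ (∀ e, ∃ j, f j (v e) ≠ 0) := by
      rw [eq_empty_iff_forall_notMem]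
      simp
    rw [show (if (∀ e, ∃ j, f j (v e) ≠ 0) then (1 : ℤ) else 0) =
      if ({e | ∀ j, f j (v e) = 0} = (∅ : Set α)) then 1 else 0 from by simp only [e2]]
    rw [← this]
    apply Finset.sum_congr rfl
    intro F _
    have e3 : (∀ j, ∀ e ∈ F.1, f j (v e) = 0) ↔ F.1 ⊆ {e | ∀ j, f j (v e) = 0} :=
      ⟨fun h e he j => h j e he, fun h j e he => h he j⟩
    simp only [e3]
  simp_rw [h2]
  rw [Finset.sum_boole, Nat.card_eq_fintype_card, Fintype.card_subtype]

lemma span_singleton_mem (hinj : Function.Injective v) (h0 : ∀ e, v e ≠ 0) (a e : α)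
    (h : v e ∈ Submodule.span (ZMod 2) {v a}) : e = a := by
  rw [Submodule.mem_span_singleton] at h
  obtain ⟨c, hc⟩ := h
  have h1 : ∀ c : ZMod 2, c = 0 ∨ c = 1 := by decide
  rcases h1 c with rfl | rfl
  · rw [zero_smul] at hc
    exact absurd hc.symm (h0 e)
  · rw [one_smul] at hc
    exact hinj hc.symm

lemma isFlat_empty (h0 : ∀ e, v e ≠ 0) : (vecMatroid (ZMod 2) v).IsFlat ∅ := by
  rw [Matroid.isFlat_iff_closure_eq]
  exact closure_empty v h0

lemma isFlat_singleton (hinj : Function.Injective v) (h0 : ∀ e, v e ≠ 0) (a : α) :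
    (vecMatroid (ZMod 2) v).IsFlat {a} := by
  rw [Matroid.isFlat_iff_closure_eq]
  ext e
  rw [mem_closure, image_singleton, mem_singleton_iff]
  constructor
  · exact span_singleton_mem v hinj h0 a e
  · rintro rfl
    exact Submodule.subset_span rfl

lemma mobius_singleton (hinj : Function.Injective v) (h0 : ∀ e, v e ≠ 0) (a : α) :
    mobius (vecMatroid (ZMod 2) v) ⟨{a}, isFlat_singleton v hinj h0 a⟩ = -1 := by
  classical
  letI : Fintype (Flats (vecMatroid (ZMod 2) v)) := Fintype.ofFinite _
  have h := sum_mobius (vecMatroid (ZMod 2) v) ⟨{a}, isFlat_singleton v hinj h0 a⟩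
  rw [closure_empty v h0, if_neg (singleton_ne_empty a)] at h
  set F0 : Flats (vecMatroid (ZMod 2) v) := ⟨{a}, isFlat_singleton v hinj h0 a⟩ with hF0
  set F1 : Flats (vecMatroid (ZMod 2) v) := ⟨∅, isFlat_empty v h0⟩ with hF1
  have h01 : F1 ≠ F0 := by
    intro h
    have := congrArg Subtype.val h
    simp only [hF1, hF0] at this
    exact (singleton_ne_empty a) this.symm
  have h2 : ∀ Y : Flats (vecMatroid (ZMod 2) v),
      (if Y.1 ⊆ F0.1 then mobius (vecMatroid (ZMod 2) v) Y else 0) =
        (if Y = F1 then mobius (vecMatroid (ZMod 2) v) F1 else 0) +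
        (if Y = F0 then mobius (vecMatroid (ZMod 2) v) F0 else 0) := by
    intro Y
    by_cases hY1 : Y = F1
    · subst hY1
      rw [if_pos (by simp [hF1]), if_pos rfl, if_neg h01, add_zero]
    · by_cases hY0 : Y = F0
      · subst hY0
        rw [if_pos (subset_refl _), if_neg hY1, if_pos rfl, zero_add]
      · rw [if_neg hY1, if_neg hY0, if_neg, add_zero]
        intro hsub
        rcases subset_singleton_iff_eq.1 hsub with h | h
        · exact hY1 (Subtype.ext h)
        · exact hY0 (Subtype.ext h)
  simp_rw [h2] at h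
  rw [Finset.sum_add_distrib, Finset.sum_ite_eq', Finset.sum_ite_eq', if_pos (Finset.mem_univ _),
    if_pos (Finset.mem_univ _), mobius_bot _ F1 (by rw [closure_empty v h0])] at h
  linarith

/-- leading part of the characteristic polynomial of a simple binary matroid -/
theorem charPoly_top (hinj : Function.Injective v) (h0 : ∀ e, v e ≠ 0)
    (hs : Submodule.span (ZMod 2) (range v) = ⊤) (n : ℕ)
    (hn : Module.finrank (ZMod 2) V = n + 1) :
    ∃ s : ℤ[X], s.degree < (n : ℕ) ∧ charPoly (vecMatroid (ZMod 2) v) =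
      X ^ (n + 1) - C (Nat.card α : ℤ) * X ^ n + s := by
  classical
  letI : Fintype (Flats (vecMatroid (ZMod 2) v)) := Fintype.ofFinite _
  letI : Fintype α := Fintype.ofFinite _
  have hr : rk (vecMatroid (ZMod 2) v) (vecMatroid (ZMod 2) v).E = n + 1 := by
    rw [rk_eq, vecMatroid_E, image_univ, hs, finrank_top, hn]
  set F1 : Flats (vecMatroid (ZMod 2) v) := ⟨∅, isFlat_empty v h0⟩ with hF1
  set F0 : α → Flats (vecMatroid (ZMod 2) v) :=
    fun a => ⟨{a}, isFlat_singleton v hinj h0 a⟩ with hF0
  have hF0inj : Function.Injective F0 := by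
    intro a b hab
    have := congrArg Subtype.val hab
    simpa [hF0] using this
  set t : Flats (vecMatroid (ZMod 2) v) → ℤ[X] := fun F => C (mobius (vecMatroid (ZMod 2) v) F) *
    X ^ (rk (vecMatroid (ZMod 2) v) (vecMatroid (ZMod 2) v).E - rk (vecMatroid (ZMod 2) v) F.1)
    with ht
  set S : Finset (Flats (vecMatroid (ZMod 2) v)) := insert F1 (Finset.univ.image F0) with hS
  have hF1not : F1 ∉ Finset.univ.image F0 := by
    rw [Finset.mem_image]
    rintro ⟨a, -, ha⟩
    have := congrArg Subtype.val ha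
    simp [hF0, hF1] at this
  refine ⟨∑ F ∈ Sᶜ, t F, ?_, ?_⟩
  · have : ∀ F ∈ Sᶜ, (t F).degree < (n : ℕ) := by
      intro F hF
      rw [hS, Finset.mem_compl, Finset.mem_insert, Finset.mem_image, not_or] at hF
      obtain ⟨hF1', hF2'⟩ := hF
      have hne : F.1.Nonempty := by
        rw [nonempty_iff_ne_empty]
        intro h
        exact hF1' (Subtype.ext h)
      obtain ⟨a, ha⟩ := hne
      have : ∃ b ∈ F.1, b ≠ a := by
        by_contra hcon
        push Not at hcon
        apply hF2'
        refine ⟨a, Finset.mem_univ _, Subtype.ext ?_⟩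
        simp only [hF0]
        ext x
        rw [mem_singleton_iff]
        exact ⟨fun h => h ▸ ha, fun h => hcon x h⟩
      obtain ⟨b, hb, hba⟩ := this
      have hrk : 2 ≤ rk (vecMatroid (ZMod 2) v) F.1 := by
        rw [rk_eq]
        have h1 : Submodule.span (ZMod 2) (v '' {a, b}) ≤ Submodule.span (ZMod 2) (v '' F.1) := by
          apply Submodule.span_mono
          apply image_mono
          intro x hx
          rcases hx with rfl | rfl
          · exact ha
          · exact hb
        have h2 := Submodule.finrank_mono h1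
        refine le_trans ?_ h2
        by_contra hlt
        push Not at hlt
        have h3 : Module.finrank (ZMod 2) (Submodule.span (ZMod 2) (v '' {a, b})) ≤ 1 := by omega
        have h4 : Submodule.span (ZMod 2) {v a} ≤ Submodule.span (ZMod 2) (v '' {a, b}) := by
          apply Submodule.span_mono
          simp
        have h5 : Module.finrank (ZMod 2) (Submodule.span (ZMod 2) {v a}) = 1 :=
          finrank_span_singleton (h0 a)
        have h6 := Submodule.eq_of_le_of_finrank_le h4 (by rw [h5]; exact h3)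
        have h7 : v b ∈ Submodule.span (ZMod 2) {v a} := by
          rw [h6]
          exact Submodule.subset_span ⟨b, by simp, rfl⟩
        exact hba (span_singleton_mem v hinj h0 a b h7)
      simp only [ht]
      rw [hr]
      refine lt_of_le_of_lt (degree_C_mul_X_pow_le _ _) ?_
      have hr2 : rk (vecMatroid (ZMod 2) v) F.1 ≤ n + 1 := by
        rw [← hn, rk_eq]
        exact Submodule.finrank_le _
      have : n + 1 - rk (vecMatroid (ZMod 2) v) F.1 < n := by omega
      exact_mod_cast this
    refine lt_of_le_of_lt (degree_sum_le _ _) ?_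
    exact (Finset.sup_lt_iff (WithBot.bot_lt_coe n)).2 this
  · unfold charPoly
    rw [finsum_eq_sum_of_fintype]
    change ∑ F, t F = _
    rw [← Finset.sum_add_sum_compl S, hS, Finset.sum_insert hF1not,
      Finset.sum_image (fun a _ b _ h => hF0inj h)]
    have e1 : t F1 = X ^ (n + 1) := by
      have h8 : rk (vecMatroid (ZMod 2) v) F1.1 = 0 := by
        rw [rk_eq]
        simp [hF1]
      simp only [ht]
      rw [mobius_bot _ F1 (by rw [closure_empty v h0]), hr, h8]
      simp
    have e2 : ∀ a, t (F0 a) = - X ^ n := by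
      intro a
      simp only [ht, hF0]
      rw [mobius_singleton v hinj h0 a, hr, rk_eq, image_singleton, finrank_span_singleton (h0 a)]
      simp
    simp_rw [e2]
    rw [e1, Finset.sum_const, Finset.card_univ, Nat.card_eq_fintype_card]
    simp only [nsmul_eq_mul, smul_neg, mul_neg]
    push_cast
    simp only [Int.cast_natCast, map_natCast]
    ring

lemma rk_lt {F G : Set α} (hF : (vecMatroid (ZMod 2) v).IsFlat F) (h : F ⊂ G) :
    rk (vecMatroid (ZMod 2) v) F < rk (vecMatroid (ZMod 2) v) G := by
  obtain ⟨e, heG, heF⟩ := exists_of_ssubset h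
  rw [rk_eq, rk_eq]
  apply Submodule.finrank_lt_finrank_of_lt
  refine lt_of_le_of_ne (Submodule.span_mono (image_mono h.subset)) ?_
  intro heq
  apply heF
  rw [Matroid.isFlat_iff_closure_eq] at hF
  rw [← hF, mem_closure, heq]
  exact Submodule.subset_span ⟨e, heG, rfl⟩

/-- no modular copoint, in terms of functionals: the key combinatorial condition -/
theorem no_modular_copoint (hinj : Function.Injective v) (h0 : ∀ e, v e ≠ 0)
    (n : ℕ) (hn : Module.finrank (ZMod 2) V = n + 1)
    (H : ∀ h : Module.Dual (ZMod 2) V, h ≠ 0 → ∃ a b, h (v a) ≠ 0 ∧ h (v b) ≠ 0 ∧ a ≠ b ∧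
      ∀ e, v e ≠ v a + v b) (X : Set α) (hX : IsModularFlat (vecMatroid (ZMod 2) v) X)
    (hr : rk (vecMatroid (ZMod 2) v) X = n) : False := by
  obtain ⟨hXf, hmod⟩ := hX
  have hlt : Submodule.span (ZMod 2) (v '' X) < ⊤ := by
    rw [lt_top_iff_ne_top]
    intro h
    rw [rk_eq, h, finrank_top, hn] at hr
    omega
  obtain ⟨h, hne, hle⟩ := Submodule.exists_le_ker_of_lt_top _ hlt
  obtain ⟨a, b, ha, hb, hab, hsum⟩ := H h hne
  have hY : (vecMatroid (ZMod 2) v).IsFlat {a, b} := by
    rw [Matroid.isFlat_iff_closure_eq]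
    ext e
    rw [mem_closure]
    constructor
    · intro he
      rw [image_pair, Submodule.mem_span_pair] at he
      obtain ⟨c, d, hcd⟩ := he
      have h1 : ∀ c : ZMod 2, c = 0 ∨ c = 1 := by decide
      rcases h1 c with rfl | rfl <;> rcases h1 d with rfl | rfl
      · simp only [zero_smul, add_zero] at hcd
        exact absurd hcd.symm (h0 e)
      · simp only [zero_smul, one_smul, zero_add] at hcd
        right
        exact hinj hcd.symm
      · simp only [zero_smul, one_smul, add_zero] at hcd
        left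
        exact hinj hcd.symm
      · simp only [one_smul] at hcd
        exact absurd hcd.symm (hsum e)
    · intro he
      exact Submodule.subset_span ⟨e, he, rfl⟩
  have h1 := hmod _ hY
  have h2 : X ∩ {a, b} = ∅ := by
    apply eq_empty_of_forall_notMem
    rintro x ⟨hx, hx2⟩
    have h3 : h (v x) = 0 := hle (Submodule.subset_span ⟨x, hx, rfl⟩)
    rcases hx2 with rfl | rfl
    · exact ha h3
    · exact hb h3
  have h3 : rk (vecMatroid (ZMod 2) v) (X ∩ {a, b}) = 0 := by
    rw [h2, rk_eq]
    simp
  have h4 : rk (vecMatroid (ZMod 2) v) ((vecMatroid (ZMod 2) v).closure (X ∪ {a, b})) ≤ n + 1 := by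
    rw [← hn, rk_eq]
    exact Submodule.finrank_le _
  have h5 : 1 < rk (vecMatroid (ZMod 2) v) {a, b} := by
    have h6 : rk (vecMatroid (ZMod 2) v) {a} = 1 := by
      rw [rk_eq, image_singleton]
      exact finrank_span_singleton (h0 a)
    rw [← h6]
    apply rk_lt v (isFlat_singleton v hinj h0 a)
    rw [ssubset_iff_subset_ne]
    refine ⟨by simp, ?_⟩
    intro h7
    have : b ∈ ({a} : Set α) := by rw [h7]; simp
    exact hab (mem_singleton_iff.1 this).symm
  rw [h3, hr] at h1
  omega

theorem not_supersolvable (hinj : Function.Injective v) (h0 : ∀ e, v e ≠ 0)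
    (hs : Submodule.span (ZMod 2) (range v) = ⊤)
    (n : ℕ) (hn : Module.finrank (ZMod 2) V = n + 1)
    (H : ∀ h : Module.Dual (ZMod 2) V, h ≠ 0 → ∃ a b, h (v a) ≠ 0 ∧ h (v b) ≠ 0 ∧ a ≠ b ∧
      ∀ e, v e ≠ v a + v b) : ¬ IsSupersolvable (vecMatroid (ZMod 2) v) := by
  rintro ⟨X, -, hXn, hXlt, hXm⟩
  have hr : rk (vecMatroid (ZMod 2) v) (vecMatroid (ZMod 2) v).E = n + 1 := by
    rw [rk_eq, vecMatroid_E, image_univ, hs, finrank_top, hn]
  rw [hr] at hXn hXlt hXm
  have h1 : ∀ i ≤ n + 1, i ≤ rk (vecMatroid (ZMod 2) v) (X i) := by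
    intro i
    induction i with
    | zero => intro _; exact Nat.zero_le _
    | succ i ih =>
      intro hi
      have h2 := rk_lt v (hXm i (by omega)).1 (hXlt i (by omega))
      have h3 := ih (by omega)
      omega
  have h2 := h1 n (by omega)
  have h3 := rk_lt v (hXm n (by omega)).1 (hXlt n (by omega))
  rw [hXn, hr] at h3
  exact no_modular_copoint v hinj h0 n hn H (X n) (hXm n (by omega)) (by omega)

end binary

end Pool.Agent.Lead.MatroidChi
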