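import Mathlib
import Pool.Agent.Lead.MatroidChi

set_option autoImplicit false

namespace Pool.Agent.Lead.BogartEx

open Set Pool.Agent.Lead.BinMatroid Pool.Agent.Lead.MatroidChi

/-- the 21 points, as bit vectors of length 6 -/
def pts : List ℕ := [2, 9, 10, 11, 14, 19, 20, 22, 23, 25, 29, 31, 35, 36, 38, 47, 48, 50, 57, 58, 59]

/-- the vector of `GF(2)^6` of a point -/
def v (i : Fin 21) : Fin 6 → ZMod 2 := fun j => if (pts.getD i 0).testBit j then 1 else 0

/-- all functionals -/
def fn (h : Fin 64) : Fin 6 → ZMod 2 := fun j => if h.val.testBit j then 1 else 0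

/-- zero sets of the 64 functionals, as 21-bit masks -/
def Zl : List ℕ := [
  2097151, 745685, 337474, 1161576, 2036271, 756997, 379794, 1135800, 225761, 1568459,
  1681500, 866166, 236593, 1508123, 1656204, 907942, 61471, 1339189, 1714594, 964232, 7631,
  1344229, 1754226, 940888, 1867265, 581931, 436156, 1194134, 1872849, 527611, 412268,
  1234246, 4095, 1347797, 1758786, 936296, 57903, 1342725, 1719186, 959672, 1868257, 532171,
  415836, 1230710, 1862705, 586523, 439692, 1190566, 2031647, 761653, 383394, 1132168,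
  2092495, 750309, 341106, 1157976, 232961, 1511723, 1660860, 903318, 222161, 1572091,
  1686124, 861510]

def zz (h : Fin 64) : ℕ := Zl.getD h 0

lemma fn_inj : Function.Injective fn := by
  decide +kernel

lemma v_inj : Function.Injective v := by
  decide +kernel

lemma v_ne : ∀ e, v e ≠ 0 := by
  decide +kernel

lemma zz_spec : ∀ h : Fin 64, ∀ i : Fin 21, (zz h).testBit i = decide (fn h ⬝ᵥ v i = 0) := by
  decide +kernel

/-- all 21 points -/
def full : ℕ := 2097151

lemma testBit_full (i : ℕ) : full.testBit i = decide (i < 21) := by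
  have : full = 2 ^ 21 - 1 := by decide
  rw [this, Nat.testBit_two_pow_sub_one]

def cnt : ℕ → ℕ → ℕ
  | 0, m => if m = 0 then 1 else 0
  | k + 1, m => (Zl.map (fun z => cnt k (m &&& z))).sum

def andAll : (k : ℕ) → (Fin k → Fin 64) → ℕ → ℕ
  | 0, _, m => m
  | k + 1, f, m => andAll k (fun j => f j.succ) (m &&& zz (f 0))

lemma sum_zz (F : ℕ → ℕ) : ∑ h : Fin 64, F (zz h) = (Zl.map F).sum := by
  rw [← List.sum_ofFn]
  congr 1

lemma card_eq_cnt (k m : ℕ) :
    (Finset.univ.filter (fun f : Fin k → Fin 64 => andAll k f m = 0)).card = cnt k m := by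
  induction k generalizing m with
  | zero =>
    simp only [andAll, cnt]
    split_ifs with h
    · simp [h]
    · simp [h]
  | succ k ih =>
    rw [Finset.card_filter]
    rw [← Equiv.sum_comp (Fin.consEquiv (fun _ => Fin 64))]
    rw [Fintype.sum_prod_type]
    simp only [cnt]
    rw [← sum_zz]
    apply Finset.sum_congr rfl
    intro h _
    rw [← ih, Finset.card_filter]
    apply Finset.sum_congr rfl
    intro g _
    simp [andAll, Fin.consEquiv]

lemma testBit_andAll (k : ℕ) (f : Fin k → Fin 64) (m i : ℕ) :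
    (andAll k f m).testBit i = true ↔ (m.testBit i = true ∧ ∀ j, (zz (f j)).testBit i = true) := by
  induction k generalizing m with
  | zero => simp [andAll]
  | succ k ih =>
    simp only [andAll]
    rw [ih, Nat.testBit_and, Bool.and_eq_true, Fin.forall_fin_succ, and_assoc]

lemma vanish_iff (m : ℕ) (hm : ∀ i, m.testBit i = decide (i < 21)) (k : ℕ)
    (f : Fin k → Fin 64) :
    (∀ e, ∃ j, fn (f j) ⬝ᵥ v e ≠ 0) ↔ andAll k f m = 0 := by
  constructor
  · intro h
    apply Nat.zero_of_testBit_eq_false
    intro i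
    rw [Bool.eq_false_iff]
    intro hi
    rw [testBit_andAll, hm, decide_eq_true_eq] at hi
    obtain ⟨h3, h4⟩ := hi
    obtain ⟨j, hj⟩ := h (Fin.mk i h3)
    apply hj
    have h2 := zz_spec (f j) (Fin.mk i h3)
    have h1 : (zz (f j)).testBit (Fin.mk i h3 : Fin 21).val = true := h4 j
    rw [h1] at h2
    exact of_decide_eq_true h2.symm
  · intro h e
    by_contra hcon
    have hcon2 : ∀ j, fn (f j) ⬝ᵥ v e = 0 := fun j => by
      by_contra h5
      exact hcon ⟨j, h5⟩
    have : (andAll k f m).testBit e.val = true := by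
      rw [testBit_andAll, hm, decide_eq_true_eq]
      refine ⟨e.2, fun j => ?_⟩
      rw [zz_spec, decide_eq_true_eq]
      exact hcon2 j
    rw [h, Nat.zero_testBit] at this
    exact Bool.false_ne_true this

/-- functionals as numbers below 64 -/
noncomputable def fnEquiv : Fin 64 ≃ Module.Dual (ZMod 2) (Fin 6 → ZMod 2) :=
  (Equiv.ofBijective fn ((Fintype.bijective_iff_injective_and_card fn).2
    ⟨fn_inj, by simp [ZMod.card]⟩)).trans (dotProductEquiv (ZMod 2) (Fin 6)).toEquiv

lemma fnEquiv_apply (h : Fin 64) (w : Fin 6 → ZMod 2) : fnEquiv h w = fn h ⬝ᵥ w := rfl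

lemma card_eq (m : ℕ) (hm : ∀ i, m.testBit i = decide (i < 21)) (k : ℕ) :
    Nat.card {f : Fin k → Module.Dual (ZMod 2) (Fin 6 → ZMod 2) // ∀ e, ∃ j, f j (v e) ≠ 0} =
      cnt k m := by
  rw [← card_eq_cnt]
  have e1 : {f : Fin k → Module.Dual (ZMod 2) (Fin 6 → ZMod 2) // ∀ e, ∃ j, f j (v e) ≠ 0} ≃
      {f : Fin k → Fin 64 // andAll k f m = 0} := by
    refine (Equiv.subtypeEquiv (Equiv.piCongrRight (fun _ => fnEquiv)) ?_).symm
    intro f
    rw [← vanish_iff m hm]
    rfl
  rw [Nat.card_congr e1, Nat.card_eq_fintype_card, Fintype.card_subtype]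

/-! ### counting with merged masks -/

def L2 : List ℕ := Zl.flatMap (fun z => Zl.map (fun w => z &&& w))

lemma flat_aux (Z : List ℕ) (g : ℕ → ℕ) (m : ℕ) (l : List ℕ) :
    ((l.flatMap (fun z => Z.map (fun w => z &&& w))).map (fun a => g (m &&& a))).sum =
      (l.map (fun z => (Z.map (fun w => g (m &&& z &&& w))).sum)).sum := by
  induction l with
  | nil => rfl
  | cons a t ih =>
    rw [List.flatMap_cons, List.map_append, List.sum_append, ih, List.map_cons, List.sum_cons,
      List.map_map]
    congr 2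
    apply List.map_congr_left
    intro w _
    simp only [Function.comp_apply, Nat.land_assoc]

lemma cnt_succ (k m : ℕ) : cnt (k + 1) m = (Zl.map (fun z => cnt k (m &&& z))).sum := by
  rw [cnt]

lemma cnt_two (k m : ℕ) : cnt (k + 2) m = (L2.map (fun a => cnt k (m &&& a))).sum := by
  unfold L2
  rw [flat_aux Zl (cnt k) m Zl, cnt_succ]
  simp_rw [cnt_succ]

def wl (F : ℕ → ℕ) (l : List (ℕ × ℕ)) : ℕ := (l.map (fun p => p.2 * F p.1)).sum

lemma wl_append (F : ℕ → ℕ) (l r : List (ℕ × ℕ)) : wl F (l ++ r) = wl F l + wl F r := by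
  simp [wl]

lemma wl_cons (F : ℕ → ℕ) (p : ℕ × ℕ) (r : List (ℕ × ℕ)) :
    wl F (p :: r) = p.2 * F p.1 + wl F r := by
  simp [wl]

/-- merging two sorted weighted lists, adding the weights of equal keys -/
def mrg : ℕ → List (ℕ × ℕ) → List (ℕ × ℕ) → List (ℕ × ℕ)
  | 0, l, r => l ++ r
  | _ + 1, [], r => r
  | _ + 1, p :: l, [] => p :: l
  | n + 1, p :: l, q :: r =>
    bif Nat.beq p.1 q.1 then (p.1, p.2 + q.2) :: mrg n l r
    else bif Nat.ble p.1 q.1 then p :: mrg n l (q :: r) else q :: mrg n (p :: l) r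

lemma wl_mrg (F : ℕ → ℕ) (n : ℕ) (l r : List (ℕ × ℕ)) :
    wl F (mrg n l r) = wl F l + wl F r := by
  induction n generalizing l r with
  | zero => simp [mrg, wl_append]
  | succ n ih =>
    rcases l with _ | ⟨p, l⟩
    · simp [mrg, wl]
    · rcases r with _ | ⟨q, r⟩
      · simp [mrg, wl]
      · unfold mrg
        by_cases h : Nat.beq p.1 q.1 = true
        · have h1 := Nat.eq_of_beq_eq_true h
          rw [h]
          simp only [cond_true, wl_cons, ih, h1]
          ring
        · rw [Bool.not_eq_true] at h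
          rw [h]
          by_cases h2 : Nat.ble p.1 q.1 = true
          · rw [h2]
            simp only [cond_true, cond_false, wl_cons, ih]
            ring
          · rw [Bool.not_eq_true] at h2
            rw [h2]
            simp only [cond_false, wl_cons, ih]
            ring

/-- merge sort with merged keys -/
def ms : ℕ → ℕ → List ℕ → List (ℕ × ℕ)
  | 0, _, l => l.map (fun a => (a, 1))
  | k + 1, h, l => mrg 5000 (ms k (h / 2) (l.take h)) (ms k (h / 2) (l.drop h))

lemma wl_ms (F : ℕ → ℕ) (k h : ℕ) (l : List ℕ) : wl F (ms k h l) = (l.map F).sum := by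
  induction k generalizing h l with
  | zero =>
    simp only [ms, wl, List.map_map]
    congr 1
    apply List.map_congr_left
    intro a _
    simp
  | succ k ih =>
    simp only [ms]
    rw [wl_mrg, ih, ih, ← List.sum_append, ← List.map_append, List.take_append_drop]

/-- the distinct intersections of two zero sets, with multiplicities -/
def Pl : List (ℕ × ℕ) := [
  (15, 6), (27, 6), (31, 6), (43, 6), (197, 6), (209, 6), (213, 6), (225, 6), (267, 6),
  (299, 6), (449, 6), (481, 6), (523, 6), (559, 6), (705, 6), (741, 6), (795, 6), (977, 6),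
  (1090, 12), (1138, 12), (1160, 12), (1208, 12), (1350, 12), (1420, 12), (1602, 12),
  (1672, 12), (1910, 6), (1980, 6), (2124, 6), (2136, 6), (2140, 6), (2152, 6), (2182, 6),
  (2194, 6), (2198, 6), (2210, 6), (2376, 6), (2408, 6), (2434, 6), (2466, 6), (2632, 6),
  (2668, 6), (2690, 6), (2726, 6), (2904, 6), (2962, 6), (3073, 12), (3121, 12), (3275, 6),
  (3323, 6), (3333, 12), (3535, 6), (3585, 12), (3787, 6), (3893, 6), (4095, 3), (4107, 6),
  (4111, 6), (4289, 6), (4293, 6), (4363, 6), (4545, 6), (5186, 12), (5256, 12), (5446, 6),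
  (5516, 6), (6216, 6), (6220, 6), (6274, 6), (6278, 6), (6472, 6), (6530, 6), (7169, 12),
  (7371, 6), (7429, 6), (7631, 3), (8194, 12), (8198, 12), (8226, 12), (8706, 12), (8742, 6),
  (12306, 12), (12310, 6), (16392, 12), (16396, 12), (16424, 12), (16904, 12), (16940, 6),
  (20504, 12), (20508, 6), (24581, 6), (24593, 6), (24597, 6), (24609, 6), (24833, 6),
  (24865, 6), (25089, 6), (25125, 6), (25361, 6), (28673, 6), (28677, 6), (28929, 6),
  (32769, 12), (32773, 12), (32801, 12), (33281, 12), (33317, 6), (36881, 12), (36885, 6),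
  (40972, 6), (40984, 6), (40988, 6), (41000, 6), (41224, 6), (41256, 6), (41480, 6),
  (41516, 6), (41752, 6), (45064, 6), (45068, 6), (45320, 6), (49158, 6), (49170, 6),
  (49174, 6), (49186, 6), (49410, 6), (49442, 6), (49666, 6), (49702, 6), (49938, 6),
  (53250, 6), (53254, 6), (53506, 6), (57355, 6), (57359, 6), (57387, 6), (57867, 6),
  (57903, 3), (61467, 6), (61471, 3), (66560, 36), (67072, 18), (70704, 18), (73792, 12),
  (73808, 12), (74048, 12), (74304, 12), (74576, 6), (77920, 12), (78176, 6), (82048, 12),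
  (82064, 12), (82304, 12), (82560, 12), (82832, 6), (86176, 12), (86432, 6), (100352, 12),
  (100368, 12), (100608, 12), (100864, 12), (101136, 6), (104480, 12), (104736, 6),
  (133120, 12), (133124, 12), (133152, 12), (133632, 12), (133668, 6), (137232, 12),
  (137236, 6), (139396, 6), (139408, 6), (139412, 6), (139424, 6), (139648, 6), (139680, 6),
  (139904, 6), (139940, 6), (140176, 6), (143488, 6), (143492, 6), (143744, 6), (147524, 6),
  (147536, 6), (147540, 6), (147552, 6), (147776, 6), (147808, 6), (148032, 6), (148068, 6),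
  (148304, 6), (151616, 6), (151620, 6), (151872, 6), (164864, 12), (164912, 12),
  (165124, 12), (165376, 12), (165684, 6), (168960, 12), (169220, 6), (196609, 12),
  (196625, 12), (196865, 12), (197121, 12), (197393, 6), (200737, 12), (200993, 6),
  (221377, 6), (221393, 6), (221633, 6), (221889, 6), (222161, 3), (225505, 6), (225761, 3),
  (232449, 18), (232961, 9), (236593, 9), (262208, 12), (262212, 12), (262240, 12),
  (262720, 12), (262756, 6), (266320, 12), (266324, 6), (271360, 12), (271408, 12),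
  (271620, 12), (271872, 12), (272180, 6), (275456, 12), (275716, 6), (280580, 6),
  (280592, 6), (280596, 6), (280608, 6), (280832, 6), (280864, 6), (281088, 6), (281124, 6),
  (281360, 6), (284672, 6), (284676, 6), (284928, 6), (295044, 6), (295056, 6), (295060, 6),
  (295072, 6), (295296, 6), (295328, 6), (295552, 6), (295588, 6), (295824, 6), (299136, 6),
  (299140, 6), (299392, 6), (327682, 12), (327698, 12), (327938, 12), (328194, 12),
  (328466, 6), (331810, 12), (332066, 6), (336962, 18), (337474, 9), (341106, 9), (379010, 6),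
  (379026, 6), (379266, 6), (379522, 6), (379794, 3), (383138, 6), (383394, 3), (393228, 6),
  (393240, 6), (393244, 6), (393256, 6), (393480, 6), (393512, 6), (393736, 6), (393772, 6),
  (394008, 6), (397320, 6), (397324, 6), (397576, 6), (411720, 6), (411724, 6), (411752, 6),
  (412232, 6), (412268, 3), (415832, 6), (415836, 3), (435336, 6), (435384, 6), (435596, 6),
  (435848, 6), (436156, 3), (439432, 6), (439692, 3), (524299, 6), (524315, 6), (524331, 6),
  (524481, 6), (524497, 6), (524513, 6), (525378, 12), (525426, 6), (525448, 12), (525496, 6),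
  (526408, 6), (526424, 6), (526440, 6), (526466, 6), (526482, 6), (526498, 6), (527361, 12),
  (527409, 6), (527563, 6), (527611, 3), (528907, 6), (529089, 6), (529986, 6), (530056, 6),
  (531016, 6), (531074, 6), (531969, 6), (532171, 3), (532738, 12), (532770, 6), (537362, 6),
  (540936, 12), (540968, 6), (545560, 6), (548865, 6), (548881, 6), (548897, 6), (553473, 6),
  (557313, 12), (557345, 6), (561937, 6), (565256, 6), (565272, 6), (565288, 6), (569864, 6),
  (573442, 6), (573458, 6), (573474, 6), (578050, 6), (581899, 6), (581931, 3), (586523, 3),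
  (591108, 18), (595764, 6), (598084, 12), (598100, 6), (602724, 6), (606340, 12),
  (606356, 6), (610980, 6), (624644, 12), (624660, 6), (629284, 6), (657664, 12), (657696, 6),
  (662288, 6), (663680, 6), (663696, 6), (663712, 6), (668288, 6), (671808, 6), (671824, 6),
  (671840, 6), (676416, 6), (689152, 12), (689200, 6), (693760, 6), (720901, 12), (720917, 6),
  (725541, 6), (745669, 6), (745685, 3), (750309, 3), (756997, 9), (761653, 3), (786752, 12),
  (786784, 6), (791376, 6), (795648, 12), (795696, 6), (800256, 6), (804864, 6), (804880, 6),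
  (804896, 6), (809472, 6), (819328, 6), (819344, 6), (819360, 6), (823936, 6), (851974, 12),
  (851990, 6), (856614, 6), (861510, 9), (866166, 3), (903302, 6), (903318, 3), (907942, 3),
  (917512, 6), (917528, 6), (917544, 6), (922120, 6), (936264, 6), (936296, 3), (940888, 3),
  (959624, 6), (959672, 3), (964232, 3), (1048704, 12), (1048708, 12), (1048736, 12),
  (1049216, 12), (1049252, 6), (1052816, 12), (1052820, 6), (1058820, 6), (1058832, 6),
  (1058836, 6), (1058848, 6), (1059072, 6), (1059104, 6), (1059328, 6), (1059364, 6),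
  (1059600, 6), (1062912, 6), (1062916, 6), (1063168, 6), (1065984, 12), (1066032, 12),
  (1066244, 12), (1066496, 12), (1066804, 6), (1070080, 12), (1070340, 6), (1081412, 6),
  (1081424, 6), (1081428, 6), (1081440, 6), (1081664, 6), (1081696, 6), (1081920, 6),
  (1081956, 6), (1082192, 6), (1085504, 6), (1085508, 6), (1085760, 6), (1114120, 12),
  (1114136, 12), (1114376, 12), (1114632, 12), (1114904, 6), (1118248, 12), (1118504, 6),
  (1131656, 18), (1132168, 9), (1135800, 9), (1157192, 6), (1157208, 6), (1157448, 6),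
  (1157704, 6), (1157976, 3), (1161320, 6), (1161576, 3), (1179654, 6), (1179666, 6),
  (1179670, 6), (1179682, 6), (1179906, 6), (1179938, 6), (1180162, 6), (1180198, 6),
  (1180434, 6), (1183746, 6), (1183750, 6), (1184002, 6), (1190018, 6), (1190022, 6),
  (1190050, 6), (1190530, 6), (1190566, 3), (1194130, 6), (1194134, 3), (1229890, 6),
  (1229938, 6), (1230150, 6), (1230402, 6), (1230710, 3), (1233986, 6), (1234246, 3),
  (1310725, 6), (1310737, 6), (1310741, 6), (1310753, 6), (1310977, 6), (1311009, 6),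
  (1311233, 6), (1311269, 6), (1311505, 6), (1314817, 6), (1314821, 6), (1315073, 6),
  (1338369, 6), (1338417, 6), (1338629, 6), (1338881, 6), (1339189, 3), (1342465, 6),
  (1342725, 3), (1343681, 6), (1343685, 6), (1343713, 6), (1344193, 6), (1344229, 3),
  (1347793, 6), (1347797, 3), (1507339, 6), (1507355, 6), (1507595, 6), (1507851, 6),
  (1508123, 3), (1511467, 6), (1511723, 3), (1567947, 6), (1568459, 3), (1572091, 3),
  (1573248, 12), (1573280, 6), (1577872, 6), (1583104, 6), (1583120, 6), (1583136, 6),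
  (1587712, 6), (1590272, 12), (1590320, 6), (1594880, 6), (1605696, 6), (1605712, 6),
  (1605728, 6), (1610304, 6), (1638412, 12), (1638428, 6), (1643052, 6), (1656204, 9),
  (1660860, 3), (1681484, 6), (1681500, 3), (1686124, 3), (1703938, 6), (1703954, 6),
  (1703970, 6), (1708546, 6), (1714562, 6), (1714594, 3), (1719186, 3), (1754178, 6),
  (1754226, 3), (1758786, 3), (1835009, 6), (1835025, 6), (1835041, 6), (1839617, 6),
  (1862657, 6), (1862705, 3), (1867265, 3), (1868225, 6), (1868257, 3), (1872849, 3),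
  (2031631, 6), (2031647, 3), (2036271, 3), (2092495, 3), (2097151, 1)]

lemma ms_eq : ms 12 2048 L2 = Pl := by
  decide +kernel

lemma cnt_two' (k m : ℕ) : cnt (k + 2) m = wl (fun a => cnt k (m &&& a)) Pl := by
  rw [cnt_two, ← ms_eq, wl_ms]

lemma c0 : cnt 0 full = 0 := by decide +kernel
lemma c1 : cnt 1 full = 0 := by decide +kernel
lemma c2 : cnt 2 full = 0 := by
  rw [cnt_two']
  decide +kernel
lemma c3 : cnt 3 full = 5040 := by
  rw [cnt_two']
  decide +kernel
lemma c4 : cnt 4 full = 3603600 := by
  rw [cnt_two']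
  simp only [cnt_two']
  decide +kernel

/-! ### the geometry -/

lemma finrank_V : Module.finrank (ZMod 2) (Fin 6 → ZMod 2) = 5 + 1 := by simp

/-- the six unit vectors are sums of points -/
lemma unit_sum : ∀ j : Fin 6, ∃ a b c : Fin 21, (Pi.single j 1 : Fin 6 → ZMod 2) = v a ∨
    (Pi.single j 1 : Fin 6 → ZMod 2) = v a + v b ∨
    (Pi.single j 1 : Fin 6 → ZMod 2) = v a + v b + v c := by
  decide +kernel

lemma span_v : Submodule.span (ZMod 2) (range v) = ⊤ := by
  rw [eq_top_iff]
  intro w _
  have h1 : w = ∑ j, w j • (Pi.single j 1 : Fin 6 → ZMod 2) := by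
    ext i
    simp [Finset.sum_apply, Pi.single_apply]
  rw [h1]
  apply Submodule.sum_mem
  intro j _
  apply Submodule.smul_mem
  have hm : ∀ a, v a ∈ Submodule.span (ZMod 2) (range v) :=
    fun a => Submodule.subset_span ⟨a, rfl⟩
  obtain ⟨a, b, c, h | h | h⟩ := unit_sum j
  · rw [h]; exact hm a
  · rw [h]; exact Submodule.add_mem _ (hm a) (hm b)
  · rw [h]; exact Submodule.add_mem _ (Submodule.add_mem _ (hm a) (hm b)) (hm c)

lemma key : ∀ h : Fin 64, h ≠ 0 → ∃ a b : Fin 21, fn h ⬝ᵥ v a ≠ 0 ∧ fn h ⬝ᵥ v b ≠ 0 ∧ a ≠ b ∧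
    ∀ e, v e ≠ v a + v b := by
  decide +kernel

open Polynomial in
lemma chi_eq : charPoly (vecMatroid (ZMod 2) v) =
    (X - C 1) * (X - C 2) * (X - C 3) * (X - C 4) * (X - C 5) * (X - C 6) := by
  obtain ⟨s, hs, hp⟩ := charPoly_top v v_inj v_ne span_v 5 finrank_V
  have hev : ∀ k, (charPoly (vecMatroid (ZMod 2) v)).eval (2 ^ k : ℤ) = (cnt k full : ℤ) := by
    intro k
    rw [eval_charPoly v v_ne span_v k, card_eq full testBit_full k]
  have h0 := hev 0
  have h1 := hev 1
  have h2 := hev 2
  have h3 := hev 3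
  have h4 := hev 4
  rw [c0] at h0
  rw [c1] at h1
  rw [c2] at h2
  rw [c3] at h3
  rw [c4] at h4
  norm_num at h0 h1 h2 h3 h4
  set q : ℤ[X] := (X - C 1) * (X - C 2) * (X - C 3) * (X - C 4) * (X - C 5) * (X - C 6) with hq
  have hq2 : q = X ^ 6 - C 21 * X ^ 5 + (C 175 * X ^ 4 - C 735 * X ^ 3 + C 1624 * X ^ 2
      - C 1764 * X + C 720) := by
    rw [hq]
    simp only [map_ofNat, map_one]
    ring
  apply eq_of_degree_sub_lt_of_eval_finset_eq ({1, 2, 4, 8, 16} : Finset ℤ)
  · have hd : charPoly (vecMatroid (ZMod 2) v) - q = s - (C 175 * X ^ 4 - C 735 * X ^ 3 +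
        C 1624 * X ^ 2 - C 1764 * X + C 720) := by
      rw [hp, hq2]
      simp only [Nat.card_eq_fintype_card, Fintype.card_fin]
      norm_num
    rw [hd]
    have hc : (({1, 2, 4, 8, 16} : Finset ℤ).card) = 5 := by decide
    rw [hc]
    apply lt_of_le_of_lt (degree_sub_le _ _)
    rw [max_lt_iff]
    refine ⟨hs, ?_⟩
    have : (C 175 * X ^ 4 - C 735 * X ^ 3 +
        C 1624 * X ^ 2 - C 1764 * X + C 720 : ℤ[X]).degree ≤ (4 : ℕ) := by
      rw [← natDegree_le_iff_degree_le]
      compute_degree
    refine lt_of_le_of_lt this ?_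
    exact_mod_cast (by norm_num : 4 < 5)
  · intro x hx
    simp only [Finset.mem_insert, Finset.mem_singleton] at hx
    rcases hx with rfl | rfl | rfl | rfl | rfl
    · rw [h0, hq]; simp
    · rw [h1, hq]; simp
    · rw [h2, hq]; simp
    · rw [h3, hq]; norm_num
    · rw [h4, hq]; norm_num

open Polynomial in
/-- There is a binary geometry `M` with 21 points, of rank 6, whose characteristic polynomial is
`(λ - 1)(λ - 2)⋯(λ - 6)`, which has no modular copoint and in particular is not supersolvable. -/
theorem main : ∃ M : Matroid (Fin 21), IsGeometry M ∧ IsBinary M ∧ rk M M.E = 6 ∧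
    charPoly M = (X - C 1) * (X - C 2) * (X - C 3) * (X - C 4) * (X - C 5) * (X - C 6) ∧
    (∀ F : Set (Fin 21), rk M F = 5 → ¬ IsModularFlat M F) ∧ ¬ IsSupersolvable M := by
  have H : ∀ h : Module.Dual (ZMod 2) (Fin 6 → ZMod 2), h ≠ 0 →
      ∃ a b, h (v a) ≠ 0 ∧ h (v b) ≠ 0 ∧ a ≠ b ∧ ∀ e, v e ≠ v a + v b := by
    intro h hne
    obtain ⟨g, rfl⟩ := fnEquiv.surjective h
    simp only [fnEquiv_apply]
    apply key g
    rintro rfl
    apply hne
    ext w
    simp [fnEquiv_apply, fn]
  refine ⟨vecMatroid (ZMod 2) v, ⟨rfl, ?_⟩, ⟨6, v, fun I => Iff.rfl⟩, ?_, chi_eq, ?_, ?_⟩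
  · intro a b
    rw [vecMatroid_indep]
    by_cases hab : a = b
    · subst hab
      rw [pair_eq_singleton, linearIndepOn_singleton_iff]
      exact v_ne a
    · rw [linearIndepOn_insert (by simpa using hab), linearIndepOn_singleton_iff, image_singleton]
      refine ⟨v_ne b, fun h => hab (span_singleton_mem v v_inj v_ne b a h)⟩
  · rw [rk_eq, vecMatroid_E, image_univ, span_v, finrank_top]
    simp
  · intro F hF hmod
    exact no_modular_copoint v v_inj v_ne 5 finrank_V H F hmod hF
  · exact not_supersolvable v v_inj v_ne span_v 5 finrank_V H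

end Pool.Agent.Lead.BogartEx
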