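import Mathlib

/-!
Helper for S0100 (MP_8e46bf_ag): for `n = 7` the discriminant of the derivative of
`∏ (x - z_i)` is not a nonnegative combination of squares of products of differences.
Evaluation at `z = (T, ±100, ±101, ±102)` for `T = 0, 10^4, 10^6`.
-/

set_option autoImplicit false

namespace Pool.Agent.Lead.DiscD7

open Polynomial

/-- critical points exist -/
theorem exists_crit (f : ℂ[X]) (hdeg : f.natDegree = 6) (hlc : f.leadingCoeff = 7) :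
    ∃ r : Fin 6 → ℂ, f = C (7:ℂ) * ∏ j : Fin 6, (X - C (r j)) := by
  have hs : f.Splits := IsAlgClosed.splits f
  have hcard : f.roots.card = 6 := by rw [← hs.natDegree_eq_card_roots, hdeg]
  have hprod := hs.eq_prod_roots
  rw [hlc] at hprod
  obtain ⟨l, hl⟩ : ∃ l : List ℂ, (l : Multiset ℂ) = f.roots := Quot.exists_rep f.roots
  rw [← hl] at hprod hcard
  simp only [Multiset.coe_card] at hcard
  match l, hcard with
  | [a0,a1,a2,a3,a4,a5], _ =>
    refine ⟨![a0,a1,a2,a3,a4,a5], ?_⟩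
    rw [hprod]
    simp [Fin.prod_univ_succ, Matrix.cons_val_succ]

theorem prod_sq (r : Fin 6 → ℂ) :
    ∏ a : Fin 6, ∏ b ∈ Finset.Ioi a, (r a - r b) ^ 2
      = (Matrix.of fun i j : Fin 6 => ∑ k, r k ^ ((i:ℕ) + (j:ℕ))).det := by
  have h1 : (Matrix.of fun i j : Fin 6 => ∑ k, r k ^ ((i:ℕ) + (j:ℕ)))
      = (Matrix.vandermonde r).transpose * Matrix.vandermonde r := by
    ext i j
    simp [Matrix.mul_apply, Matrix.vandermonde_apply, pow_add]
  rw [h1, Matrix.det_mul, Matrix.det_transpose, Matrix.det_vandermonde, ← pow_two,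
    ← Finset.prod_pow]
  refine Finset.prod_congr rfl fun a _ => ?_
  rw [← Finset.prod_pow]
  refine Finset.prod_congr rfl fun b _ => ?_
  ring

theorem prod_sq_scale (r : Fin 6 → ℂ) :
    ∏ a : Fin 6, ∏ b ∈ Finset.Ioi a, (7 * r a - 7 * r b) ^ 2
      = 7 ^ 30 * ∏ a : Fin 6, ∏ b ∈ Finset.Ioi a, (r a - r b) ^ 2 := by
  have : ∀ a b : Fin 6, (7 * r a - 7 * r b) ^ 2 = 7 ^ 2 * (r a - r b) ^ 2 := by
    intro a b; ring
  simp only [this, Finset.prod_mul_distrib, Finset.prod_const]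
  congr 1
  have h : (∑ a : Fin 6, (Finset.Ioi a).card) = 15 := by decide
  rw [Finset.prod_pow_eq_pow_sum, h]
  norm_num

/-- Newton identities for six numbers -/
theorem newton (R : Fin 6 → ℂ) (s1 s2 s3 s4 s5 s6 : ℂ)
    (h : ∀ y, ∏ j, (y - R j) = y^6 - s1*y^5 + s2*y^4 - s3*y^3 + s4*y^2 - s5*y + s6) :
    (∑ j, R j ^ 1 = s1) ∧ (∑ j, R j ^ 2 = s1 * (∑ j, R j ^ 1) - 2*s2) ∧
    (∑ j, R j ^ 3 = s1 * (∑ j, R j ^ 2) - s2 * (∑ j, R j ^ 1) + 3*s3) ∧
    (∑ j, R j ^ 4 = s1 * (∑ j, R j ^ 3) - s2 * (∑ j, R j ^ 2) + s3 * (∑ j, R j ^ 1) - 4*s4) ∧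
    (∑ j, R j ^ 5 = s1 * (∑ j, R j ^ 4) - s2 * (∑ j, R j ^ 3) + s3 * (∑ j, R j ^ 2)
        - s4 * (∑ j, R j ^ 1) + 5*s5) ∧
    (∀ n, ∑ j, R j ^ (n+6) = s1 * (∑ j, R j ^ (n+5)) - s2 * (∑ j, R j ^ (n+4))
        + s3 * (∑ j, R j ^ (n+3)) - s4 * (∑ j, R j ^ (n+2)) + s5 * (∑ j, R j ^ (n+1))
        - s6 * (∑ j, R j ^ n)) := by
  have hrec : ∀ n, ∑ j, R j ^ (n+6) = s1 * (∑ j, R j ^ (n+5)) - s2 * (∑ j, R j ^ (n+4))
        + s3 * (∑ j, R j ^ (n+3)) - s4 * (∑ j, R j ^ (n+2)) + s5 * (∑ j, R j ^ (n+1))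
        - s6 * (∑ j, R j ^ n) := by
    intro n
    simp only [Finset.mul_sum, ← Finset.sum_sub_distrib, ← Finset.sum_add_distrib]
    refine Finset.sum_congr rfl fun i _ => ?_
    have h0 := h (R i)
    rw [Finset.prod_eq_zero (Finset.mem_univ i) (by simp)] at h0
    linear_combination (-(R i)^n) * h0
  have h0 := h 0
  have h1 := h 1
  have hm1 := h (-1)
  have h2 := h 2
  have hm2 := h (-2)
  have h3 := h 3
  simp only [Fin.prod_univ_six] at h0 h1 hm1 h2 hm2 h3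
  simp only [Fin.sum_univ_six]
  simp only [Fin.sum_univ_six] at hrec
  generalize R 0 = a at *
  generalize R 1 = b at *
  generalize R 2 = c at *
  generalize R 3 = d at *
  generalize R 4 = e at *
  generalize R 5 = f at *
  have e1 : a+b+c+d+e+f = s1 := by
    linear_combination (1/12)*h0 + (-1/12)*h1 + (-1/24)*hm1 + (1/24)*h2 + (1/120)*hm2 + (-1/120)*h3
  have e2 : a*b+a*c+a*d+a*e+a*f+b*c+b*d+b*e+b*f+c*d+c*e+c*f+d*e+d*f+e*f = s2 := by
    linear_combination (1/4)*h0 + (-1/6)*h1 + (-1/6)*hm1 + (1/24)*h2 + (1/24)*hm2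
  have e3 : a*b*c+a*b*d+a*b*e+a*b*f+a*c*d+a*c*e+a*c*f+a*d*e+a*d*f+a*e*f+b*c*d+b*c*e+b*c*f
      +b*d*e+b*d*f+b*e*f+c*d*e+c*d*f+c*e*f+d*e*f = s3 := by
    linear_combination (-5/12)*h0 + (7/12)*h1 + (1/24)*hm1 + (-7/24)*h2 + (1/24)*hm2 + (1/24)*h3
  have e4 : a*b*c*d+a*b*c*e+a*b*c*f+a*b*d*e+a*b*d*f+a*b*e*f+a*c*d*e+a*c*d*f+a*c*e*f+a*d*e*f
      +b*c*d*e+b*c*d*f+b*c*e*f+b*d*e*f+c*d*e*f = s4 := by
    linear_combination (-5/4)*h0 + (2/3)*h1 + (2/3)*hm1 + (-1/24)*h2 + (-1/24)*hm2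
  have e5 : a*b*c*d*e+a*b*c*d*f+a*b*c*e*f+a*b*d*e*f+a*c*d*e*f+b*c*d*e*f = s5 := by
    linear_combination (1/3)*h0 + (-1)*h1 + (1/2)*hm1 + (1/4)*h2 + (-1/20)*hm2 + (-1/30)*h3
  refine ⟨?_, ?_, ?_, ?_, ?_, hrec⟩
  · rw [← e1]; ring
  · rw [← e1, ← e2]; ring
  · rw [← e1, ← e2, ← e3]; ring
  · rw [← e1, ← e2, ← e3, ← e4]; ring
  · rw [← e1, ← e2, ← e3, ← e4, ← e5]; ring

/-- elementary symmetric functions of the scaled critical points `7 r_j` -/
def es (T : ℤ) : ℕ → ℤ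
  | 1 => 6*T
  | 2 => -35*30605
  | 3 => -196*T*30605
  | 4 => 1029*312181204
  | 5 => 4802*T*312181204
  | 6 => -16807*1061312040000
  | _ => 0

/-- power sums by Newton's recursion -/
def ps (T : ℤ) : ℕ → ℤ
  | 0 => 6
  | 1 => es T 1
  | 2 => es T 1 * ps T 1 - 2*es T 2
  | 3 => es T 1 * ps T 2 - es T 2 * ps T 1 + 3*es T 3
  | 4 => es T 1 * ps T 3 - es T 2 * ps T 2 + es T 3 * ps T 1 - 4*es T 4
  | 5 => es T 1 * ps T 4 - es T 2 * ps T 3 + es T 3 * ps T 2 - es T 4 * ps T 1 + 5*es T 5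
  | (n+6) => es T 1 * ps T (n+5) - es T 2 * ps T (n+4) + es T 3 * ps T (n+3) - es T 4 * ps T (n+2)
      + es T 5 * ps T (n+1) - es T 6 * (ps T n)

/-- the seven points -/
def zz (t : ℂ) : Fin 7 → ℂ := ![t, -100, -101, -102, 100, 101, 102]

theorem zz_prod (t : ℂ) : ∏ i : Fin 7, (X - C (zz t i))
    = X^7 - C t * X^6 - 30605 * X^5 + 30605 * C t * X^4 + 312181204 * X^3 - 312181204 * C t * X^2
      - 1061312040000 * X + 1061312040000 * C t := by
  have c100 : (C (100:ℂ) : ℂ[X]) = 100 := map_ofNat C 100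
  have c101 : (C (101:ℂ) : ℂ[X]) = 101 := map_ofNat C 101
  have c102 : (C (102:ℂ) : ℂ[X]) = 102 := map_ofNat C 102
  simp only [Fin.prod_univ_seven, zz]
  simp
  rw [c100, c101, c102]
  ring

theorem zz_deriv (t : ℂ) : derivative (∏ i : Fin 7, (X - C (zz t i)))
    = C 7 * X^6 - C (6 * t) * X^5 - C 153025 * X^4 + C (122420 * t) * X^3 + C 936543612 * X^2
      - C (624362408 * t) * X - C 1061312040000 := by
  have cc : ∀ n : ℕ, (C ((n:ℕ):ℂ) : ℂ[X]) = (n : ℂ[X]) := fun n => map_natCast C n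
  have c2 : (C (2:ℂ) : ℂ[X]) = 2 := map_ofNat C 2
  have c3 : (C (3:ℂ) : ℂ[X]) = 3 := map_ofNat C 3
  have c4 : (C (4:ℂ) : ℂ[X]) = 4 := map_ofNat C 4
  have c5 : (C (5:ℂ) : ℂ[X]) = 5 := map_ofNat C 5
  have c6 : (C (6:ℂ) : ℂ[X]) = 6 := map_ofNat C 6
  have d1 : (C (153025:ℂ) : ℂ[X]) = 153025 := map_ofNat C 153025
  have d2 : (C (122420:ℂ) : ℂ[X]) = 122420 := map_ofNat C 122420
  have d3 : (C (936543612:ℂ) : ℂ[X]) = 936543612 := map_ofNat C 936543612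
  have d4 : (C (624362408:ℂ) : ℂ[X]) = 624362408 := map_ofNat C 624362408
  have d5 : (C (1061312040000:ℂ) : ℂ[X]) = 1061312040000 := map_ofNat C 1061312040000
  rw [zz_prod]
  simp [derivative_pow, derivative_mul, C_mul]
  rw [c2, c3, c4, c5, c6, d1, d2, d3, d4, d5]
  ring


/-- characteristic polynomial of the scaled critical points -/
theorem crit_eval (T : ℤ) (r : Fin 6 → ℂ)
    (h : derivative (∏ i : Fin 7, (X - C (zz (T:ℂ) i))) = C 7 * ∏ j : Fin 6, (X - C (r j))) (y : ℂ) :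
    ∏ j : Fin 6, (y - 7 * r j) = y^6 - (es T 1 : ℂ)*y^5 + (es T 2 : ℂ)*y^4 - (es T 3 : ℂ)*y^3
      + (es T 4 : ℂ)*y^2 - (es T 5 : ℂ)*y + (es T 6 : ℂ) := by
  have h' := congrArg (eval (y/7)) h
  rw [zz_deriv] at h'
  simp only [eval_mul, eval_sub, eval_add, eval_C, eval_pow, eval_X, Fin.prod_univ_six] at h'
  simp only [Fin.prod_univ_six, es]
  push_cast
  linear_combination (-7^5) * h'

/-- power sums of the scaled critical points -/
theorem sum_pow (T : ℤ) (r : Fin 6 → ℂ)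
    (h : derivative (∏ i : Fin 7, (X - C (zz (T:ℂ) i))) = C 7 * ∏ j : Fin 6, (X - C (r j))) :
    ∀ n, ∑ j, (7 * r j) ^ n = (ps T n : ℂ) := by
  obtain ⟨n1, n2, n3, n4, n5, n6⟩ := newton (fun j => 7 * r j) _ _ _ _ _ _ (crit_eval T r h)
  intro n
  induction n using Nat.strong_induction_on with
  | _ n ih =>
    match n, ih with
    | 0, _ => simp [ps]
    | 1, _ => rw [n1]; rfl
    | 2, ih => rw [n2, ih 1 (by norm_num)]; simp only [ps]; push_cast; ring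
    | 3, ih => rw [n3, ih 1 (by norm_num), ih 2 (by norm_num)]; simp only [ps]; push_cast; ring
    | 4, ih =>
      rw [n4, ih 1 (by norm_num), ih 2 (by norm_num), ih 3 (by norm_num)]
      simp only [ps]; push_cast; ring
    | 5, ih =>
      rw [n5, ih 1 (by norm_num), ih 2 (by norm_num), ih 3 (by norm_num), ih 4 (by norm_num)]
      simp only [ps]; push_cast; ring
    | (n+6), ih =>
      rw [n6, ih n (by omega), ih (n+1) (by omega), ih (n+2) (by omega), ih (n+3) (by omega),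
        ih (n+4) (by omega), ih (n+5) (by omega)]
      simp only [ps]; push_cast; ring

/-- the discriminant of the derivative, scaled by `7^20`, is an explicit determinant -/
theorem disc_det (T : ℤ) (r : Fin 6 → ℂ)
    (h : derivative (∏ i : Fin 7, (X - C (zz (T:ℂ) i))) = C 7 * ∏ j : Fin 6, (X - C (r j))) :
    (7:ℂ)^30 * ∏ a : Fin 6, ∏ b ∈ Finset.Ioi a, (r a - r b) ^ 2
      = (((Matrix.of fun i j : Fin 6 => ps T ((i:ℕ) + (j:ℕ))).det : ℤ) : ℂ) := by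
  rw [← prod_sq_scale, prod_sq (fun j => 7 * r j)]
  change _ = (Int.castRingHom ℂ) _
  rw [RingHom.map_det]
  congr 1
  ext i j
  simp [sum_pow T r h]


theorem det0 : (Matrix.of fun i j : Fin 6 => ps 0 ((i:ℕ) + (j:ℕ))).det = 22125558845833736355533586337250706521053141321498383072648483369725202923520000 := by
  decide +kernel

theorem det1 : (Matrix.of fun i j : Fin 6 => ps 10000 ((i:ℕ) + (j:ℕ))).det = 2573931854437100717353696585699588537178623740056682123883905150076976134656058104072508281323520000 := by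
  decide +kernel

theorem det2 : (Matrix.of fun i j : Fin 6 => ps 1000000 ((i:ℕ) + (j:ℕ))).det = 257477811254760563318364763989864005875908293820877310319990326254616773948647924663672911155238871511200509202923520000 := by
  decide +kernel

/-- real version of the seven points -/
def zr (t : ℝ) : Fin 7 → ℝ := ![t, -100, -101, -102, 100, 101, 102]

/-- product of differences along a list of pairs -/
def PP (t : ℝ) (E : List (Fin 7 × Fin 7)) : ℝ := (E.map (fun p => zr t p.1 - zr t p.2)).prod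

/-- one factor -/
theorem factor (p : Fin 7 × Fin 7) :
    ((zr 10000 p.1 - zr 10000 p.2)^2 ≤ (zr 0 p.1 - zr 0 p.2)^2 ∧
      (zr 10000 p.1 - zr 10000 p.2)^2 ≤ (zr 1000000 p.1 - zr 1000000 p.2)^2) ∨
    ((zr 10000 p.1 - zr 10000 p.2)^2 ≤ (10102/100)^2 * (zr 0 p.1 - zr 0 p.2)^2 ∧
      (zr 10000 p.1 - zr 10000 p.2)^2 ≤ (10102/999898)^2 * (zr 1000000 p.1 - zr 1000000 p.2)^2) := by
  obtain ⟨i, j⟩ := p
  fin_cases i <;> fin_cases j <;> simp [zr] <;> norm_num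

theorem PP_bound (E : List (Fin 7 × Fin 7)) : ∃ m : ℕ,
    PP 10000 E ^ 2 ≤ ((10102/100)^2)^m * PP 0 E ^ 2 ∧
    PP 10000 E ^ 2 ≤ ((10102/999898)^2)^m * PP 1000000 E ^ 2 := by
  induction E with
  | nil => exact ⟨0, by simp [PP], by simp [PP]⟩
  | cons p E ih =>
    obtain ⟨m, h1, h2⟩ := ih
    have e : ∀ t, PP t (p :: E) = (zr t p.1 - zr t p.2) * PP t E := fun t => by simp [PP]
    simp only [e, mul_pow]
    rcases factor p with ⟨f1, f2⟩ | ⟨f1, f2⟩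
    · refine ⟨m, ?_, ?_⟩
      · calc _ ≤ (zr 0 p.1 - zr 0 p.2)^2 * ((((10102:ℝ)/100)^2)^m * PP 0 E ^ 2) :=
              mul_le_mul f1 h1 (sq_nonneg _) (sq_nonneg _)
          _ = _ := by ring
      · calc _ ≤ (zr 1000000 p.1 - zr 1000000 p.2)^2 *
                ((((10102:ℝ)/999898)^2)^m * PP 1000000 E ^ 2) :=
              mul_le_mul f2 h2 (sq_nonneg _) (sq_nonneg _)
          _ = _ := by ring
    · refine ⟨m + 1, ?_, ?_⟩
      · calc _ ≤ ((10102/100)^2 * (zr 0 p.1 - zr 0 p.2)^2) *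
                ((((10102:ℝ)/100)^2)^m * PP 0 E ^ 2) :=
              mul_le_mul f1 h1 (sq_nonneg _) (by positivity)
          _ = _ := by ring
      · calc _ ≤ ((10102/999898)^2 * (zr 1000000 p.1 - zr 1000000 p.2)^2) *
                ((((10102:ℝ)/999898)^2)^m * PP 1000000 E ^ 2) :=
              mul_le_mul f2 h2 (sq_nonneg _) (by positivity)
          _ = _ := by ring

theorem PP_main (E : List (Fin 7 × Fin 7)) :
    PP 10000 E ^ 2 ≤ (10102/100)^10 * PP 0 E ^ 2 + (10102/999898)^12 * PP 1000000 E ^ 2 := by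
  obtain ⟨m, h1, h2⟩ := PP_bound E
  have n0 : (0:ℝ) ≤ (10102/100)^10 * PP 0 E ^ 2 := by positivity
  have n2 : (0:ℝ) ≤ (10102/999898)^12 * PP 1000000 E ^ 2 := by positivity
  rcases Nat.lt_or_ge 5 m with hm | hm
  · have : (((10102:ℝ)/999898)^2)^m ≤ (((10102:ℝ)/999898)^2)^6 :=
      pow_le_pow_of_le_one (by positivity) (by norm_num) hm
    have h3 : (((10102:ℝ)/999898)^2)^m * PP 1000000 E ^ 2
        ≤ (((10102:ℝ)/999898)^2)^6 * PP 1000000 E ^ 2 :=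
      mul_le_mul_of_nonneg_right this (sq_nonneg _)
    have e6 : (((10102:ℝ)/999898)^2)^6 = (10102/999898)^12 := by rw [← pow_mul]
    rw [e6] at h3
    linarith
  · have : (((10102:ℝ)/100)^2)^m ≤ (((10102:ℝ)/100)^2)^5 :=
      pow_le_pow_right₀ (by norm_num) hm
    have h3 : (((10102:ℝ)/100)^2)^m * PP 0 E ^ 2 ≤ (((10102:ℝ)/100)^2)^5 * PP 0 E ^ 2 :=
      mul_le_mul_of_nonneg_right this (sq_nonneg _)
    have e5 : (((10102:ℝ)/100)^2)^5 = (10102/100)^10 := by rw [← pow_mul]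
    rw [e5] at h3
    linarith


theorem deg_lc (t : ℂ) : (derivative (∏ i : Fin 7, (X - C (zz t i)))).natDegree = 6 ∧
    (derivative (∏ i : Fin 7, (X - C (zz t i)))).leadingCoeff = 7 := by
  rw [zz_deriv]
  have hd : (C (7:ℂ) * X^6 - C (6 * t) * X^5 - C 153025 * X^4 + C (122420 * t) * X^3
      + C 936543612 * X^2 - C (624362408 * t) * X - C 1061312040000).natDegree = 6 := by
    compute_degree!
  refine ⟨hd, ?_⟩
  rw [leadingCoeff, hd]
  simp only [coeff_sub, coeff_add, coeff_C_mul, coeff_X_pow, coeff_X, coeff_C]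
  norm_num

theorem zz_eq (t : ℝ) (i : Fin 7) : zz (t:ℂ) i = ((zr t i : ℝ) : ℂ) := by
  fin_cases i <;> simp [zz, zr]

theorem val (T : ℤ) (m : ℕ) (c : Fin m → ℝ) (E : Fin m → List (Fin 7 × Fin 7))
    (h : ∀ (z : Fin 7 → ℂ) (r : Fin 6 → ℂ),
          derivative (∏ i : Fin 7, (X - C (z i))) = C (7:ℂ) * ∏ j : Fin 6, (X - C (r j)) →
            (7:ℂ) ^ 10 * ∏ a : Fin 6, ∏ b ∈ Finset.Ioi a, (r a - r b) ^ 2 =
              ∑ k : Fin m, ((c k : ℝ) : ℂ) * (((E k).map (fun p => z p.1 - z p.2)).prod) ^ 2) :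
    (7:ℝ)^20 * ∑ k, c k * PP (T:ℝ) (E k) ^ 2
      = (((Matrix.of fun i j : Fin 6 => ps T ((i:ℕ) + (j:ℕ))).det : ℤ) : ℝ) := by
  obtain ⟨hd, hl⟩ := deg_lc (T:ℂ)
  obtain ⟨r, hr⟩ := exists_crit _ hd hl
  have h1 := h _ r hr
  have h2 := disc_det T r hr
  have h3 : ∀ k, (((E k).map (fun p => zz (T:ℂ) p.1 - zz (T:ℂ) p.2)).prod)
      = ((PP (T:ℝ) (E k) : ℝ) : ℂ) := by
    intro k
    generalize E k = L
    induction L with
    | nil => simp [PP]
    | cons p L ih =>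
      have hz : ∀ i, zz (T:ℂ) i = ((zr (T:ℝ) i : ℝ) : ℂ) := by
        intro i
        have := zz_eq (T:ℝ) i
        simpa using this
      simp only [PP, List.map_cons, List.prod_cons] at ih ⊢
      rw [ih, hz, hz]
      push_cast
      ring
  simp only [h3] at h1
  have h4 : (7:ℂ)^20 * ∑ k, ((c k : ℝ) : ℂ) * ((PP (T:ℝ) (E k) : ℝ) : ℂ) ^ 2
      = (((Matrix.of fun i j : Fin 6 => ps T ((i:ℕ) + (j:ℕ))).det : ℤ) : ℂ) := by
    rw [← h1, ← h2]; ring
  have h5 : (((7:ℝ)^20 * ∑ k, c k * PP (T:ℝ) (E k) ^ 2 : ℝ) : ℂ)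
      = ((((Matrix.of fun i j : Fin 6 => ps T ((i:ℕ) + (j:ℕ))).det : ℤ) : ℝ) : ℂ) := by
    rw [Complex.ofReal_intCast, ← h4]
    push_cast
    rfl
  exact Complex.ofReal_injective h5

end Pool.Agent.Lead.DiscD7
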