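import Pool.Agent.Lead.BinMatroid

set_option autoImplicit false

namespace Pool.Agent.Lead.Ex633

open Set Pool.Agent.Lead.BinMatroid

/-- binary codes of the vectors: column `0` gives the first matroid, column `1` the second -/
def code (p : Fin 11 × Fin 2) : ℕ :=
  if p.2 = 0 then (![19, 17, 1, 24, 36, 11, 58, 20, 25, 34, 33] : Fin 11 → ℕ) p.1
  else (![32, 40, 1, 12, 16, 35, 33, 36, 2, 26, 28] : Fin 11 → ℕ) p.1

/-- the vector with binary code `n` -/
def toVec (n : ℕ) : Fin 6 → ZMod 2 := fun j => if n.testBit j then 1 else 0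

/-- the vectors, in `GF(2)^6 ⊕ GF(2)^6` -/
def vec (p : Fin 11 × Fin 2) : Fin 2 → Fin 6 → ZMod 2 :=
  fun k => if k = p.2 then toVec (code p) else 0

/-- sum of the vectors of one side -/
def sideSum (k : Fin 2) (c : Finset (Fin 11)) : Fin 6 → ZMod 2 := ∑ e ∈ c, vec (e, k) k

lemma toVec_xor (a b : ℕ) : toVec (a ^^^ b) = toVec a + toVec b := by
  funext j
  simp only [toVec, Nat.testBit_xor, Pi.add_apply]
  cases a.testBit j <;> cases b.testBit j <;> decide

lemma toVec_zero : toVec 0 = 0 := by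
  funext j; simp [toVec]

lemma toVec_ne {n : ℕ} (h : n < 64) (h0 : n ≠ 0) : toVec n ≠ 0 := by
  intro hv
  have h1 : ∀ j : Fin 6, n.testBit j = false := by
    intro j
    have := congrFun hv j
    by_contra hcon
    have h2 : n.testBit j = true := by simpa using hcon
    simp [toVec, h2] at this
  have h2 : ∀ n < 64, (∀ j : Fin 6, n.testBit j = false) → n = 0 := by decide +kernel
  exact h0 (h2 n h h1)

/-- xor of the codes over a list -/
def xs (k : Fin 2) (l : List (Fin 11)) : ℕ := l.foldr (fun e a => code (e, k) ^^^ a) 0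

lemma sideSum_list (k : Fin 2) (l : List (Fin 11)) (hl : l.Nodup) :
    sideSum k l.toFinset = toVec (xs k l) := by
  induction l with
  | nil => simp [sideSum, xs, toVec_zero]
  | cons a l ih =>
    rw [List.nodup_cons] at hl
    have h1 : xs k (a :: l) = code (a, k) ^^^ xs k l := rfl
    have h2 : vec (a, k) k = toVec (code (a, k)) := by simp [vec]
    rw [h1, toVec_xor, ← ih hl.2, List.toFinset_cons]
    unfold sideSum
    rw [Finset.sum_insert (by simpa using hl.1), h2]

/-- a list of circuits of the two matroids -/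
def circL : List (List (Fin 11) × Fin 2) := [([0, 3, 5], 0), ([2, 3, 8], 0), ([3, 6, 9], 0),
  ([0, 2, 6], 1), ([1, 3, 7], 1), ([5, 6, 8], 1), ([3, 4, 10], 1), ([2, 4, 5, 6, 7], 0),
  ([0, 4, 6, 7, 8], 0), ([0, 2, 4, 7, 9], 0), ([4, 5, 7, 8, 9], 0), ([1, 2, 5, 6, 10], 0),
  ([0, 1, 6, 8, 10], 0), ([0, 1, 2, 9, 10], 0), ([1, 5, 8, 9, 10], 0), ([1, 2, 4, 5, 9], 1),
  ([0, 1, 4, 8, 9], 1), ([2, 5, 7, 9, 10], 1), ([0, 7, 8, 9, 10], 1)]

lemma circL_dep : ∀ c ∈ circL, c.1 ≠ [] ∧ c.1.Nodup ∧ xs c.2 c.1 = 0 := by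
  decide +kernel

lemma circ_dep (c : List (Fin 11) × Fin 2) (hc : c ∈ circL) :
    c.1.toFinset.Nonempty ∧ sideSum c.2 c.1.toFinset = 0 := by
  obtain ⟨h1, h2, h3⟩ := circL_dep c hc
  refine ⟨?_, ?_⟩
  · rwa [List.toFinset_nonempty_iff]
  · rw [sideSum_list _ _ h2, h3, toVec_zero]

/-- bit mask of a list -/
def mask (l : List (Fin 11)) : ℕ := l.foldr (fun e a => (1 <<< (e : ℕ)) ||| a) 0

lemma testBit_mask (l : List (Fin 11)) (j : Fin 11) : (mask l).testBit j = true ↔ j ∈ l := by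
  induction l with
  | nil => simp [mask]
  | cons a l ih =>
    have h1 : mask (a :: l) = (1 <<< (a : ℕ)) ||| mask l := rfl
    rw [h1, Nat.testBit_or, Bool.or_eq_true, ih, List.mem_cons]
    have : (1 <<< (a : ℕ)).testBit (j : ℕ) = true ↔ j = a := by
      rw [Nat.one_shiftLeft, Nat.testBit_two_pow]
      simp [Fin.ext_iff, eq_comm]
    rw [this]

lemma mask_lt (l : List (Fin 11)) : mask l < 2048 := by
  induction l with
  | nil => simp [mask]
  | cons a l ih =>
    have h1 : mask (a :: l) = (1 <<< (a : ℕ)) ||| mask l := rfl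
    rw [h1]
    have h2 : 1 <<< (a : ℕ) < 2 ^ 11 := by
      rw [Nat.one_shiftLeft]
      exact Nat.pow_lt_pow_right (by norm_num) a.2
    exact Nat.or_lt_two_pow h2 ih

lemma no_colouring_nat : ∀ i < 32, ∀ j < 64, (circL.any (fun c =>
    (mask c.1 &&& (64 * i + j) == mask c.1) || (mask c.1 &&& (64 * i + j) == 0))) = true := by
  decide +kernel

lemma no_colouring (A : Finset (Fin 11)) :
    ∃ c ∈ circL, c.1.toFinset ⊆ A ∨ Disjoint c.1.toFinset A := by
  classical
  obtain ⟨l, -, rfl⟩ : ∃ l : List (Fin 11), l.Nodup ∧ l.toFinset = A :=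
    ⟨A.toList, A.nodup_toList, A.toList_toFinset⟩
  have h := no_colouring_nat (mask l / 64) (by have := mask_lt l; omega) (mask l % 64)
    (Nat.mod_lt _ (by norm_num))
  rw [Nat.div_add_mod, List.any_eq_true] at h
  obtain ⟨c, hc, h⟩ := h
  refine ⟨c, hc, ?_⟩
  rw [Bool.or_eq_true, beq_iff_eq, beq_iff_eq] at h
  rcases h with h | h
  · left
    intro e he
    rw [List.mem_toFinset] at he ⊢
    have h1 := (testBit_mask c.1 e).2 he
    rw [← h, Nat.testBit_and, Bool.and_eq_true] at h1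
    exact (testBit_mask l e).1 h1.2
  · right
    rw [Finset.disjoint_left]
    intro e he he2
    rw [List.mem_toFinset] at he he2
    have h1 := (testBit_mask c.1 e).2 he
    have h2 := (testBit_mask l e).2 he2
    have h3 : (mask c.1 &&& mask l).testBit e = true := by
      rw [Nat.testBit_and, h1, h2]; rfl
    rw [h] at h3
    simp at h3

/-- eleven common bases covering every element exactly six times -/
def covL : Fin 11 → List (Fin 11) :=
  ![[0, 1, 3, 4, 6, 8], [0, 1, 3, 4, 6, 8], [1, 3, 4, 5, 8, 9], [0, 1, 2, 7, 8, 9],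
    [1, 2, 5, 7, 8, 9], [0, 1, 4, 5, 6, 10], [2, 3, 5, 6, 7, 10], [2, 3, 5, 6, 7, 10],
    [0, 2, 4, 5, 9, 10], [0, 2, 3, 7, 9, 10], [4, 6, 7, 8, 9, 10]]

/-- the same as sets -/
def cov (j : Fin 11) : Finset (Fin 11) := (covL j).toFinset

lemma cov_six : ∀ e : Fin 11, (Finset.univ.filter (fun j => e ∈ cov j)).card = 6 := by
  decide +kernel

/-- three matchings that cover -/
def cov3L : Fin 3 → List (Fin 11) :=
  ![[1, 2, 3, 4, 5, 6], [0, 1, 2, 4, 5, 7], [0, 2, 4, 8, 9, 10]]

/-- the same as sets -/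
def cov3 (j : Fin 3) : Finset (Fin 11) := (cov3L j).toFinset

lemma cov3_all : ∀ e : Fin 11, ∃ i, e ∈ cov3 i := by decide +kernel

lemma code_lt (p : Fin 11 × Fin 2) : code p < 64 := by
  revert p; decide +kernel

lemma xs_lt (k : Fin 2) (l : List (Fin 11)) : xs k l < 64 := by
  induction l with
  | nil => simp [xs]
  | cons a l ih =>
    have h1 : xs k (a :: l) = code (a, k) ^^^ xs k l := rfl
    rw [h1]
    exact Nat.xor_lt_two_pow (n := 6) (code_lt _) ih

lemma indep_of_list (L : List (Fin 11)) (hL : L.Nodup) (k : Fin 2)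
    (h : ∀ l ∈ L.sublists, l ≠ [] → xs k l ≠ 0) (c : Finset (Fin 11)) (hc : c ⊆ L.toFinset)
    (hne : c.Nonempty) : sideSum k c ≠ 0 := by
  classical
  have h1 : c = (L.filter (fun x => x ∈ c)).toFinset := by
    ext x
    simp only [List.mem_toFinset, List.mem_filter, decide_eq_true_eq]
    constructor
    · intro hx
      exact ⟨by simpa using hc hx, hx⟩
    · exact fun hx => hx.2
  have h2 : (L.filter (fun x => x ∈ c)) ∈ L.sublists := by
    rw [List.mem_sublists]; exact List.filter_sublist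
  have h3 : (L.filter (fun x => x ∈ c)) ≠ [] := by
    intro h0
    rw [h0] at h1
    rw [h1] at hne
    simp at hne
  rw [h1, sideSum_list _ _ (hL.filter _)]
  exact toVec_ne (xs_lt _ _) (h _ h2 h3)

lemma covL_nodup : ∀ j, (covL j).Nodup := by decide +kernel

lemma cov3L_nodup : ∀ j, (cov3L j).Nodup := by decide +kernel

lemma covL_xs : ∀ j : Fin 11, ∀ k : Fin 2, ∀ l ∈ (covL j).sublists, l ≠ [] → xs k l ≠ 0 := by
  decide +kernel

lemma cov3L_xs : ∀ j : Fin 3, ∀ k : Fin 2, ∀ l ∈ (cov3L j).sublists, l ≠ [] → xs k l ≠ 0 := by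
  decide +kernel

lemma cov_indep (j : Fin 11) (k : Fin 2) (c : Finset (Fin 11)) (hc : c ⊆ cov j)
    (hne : c.Nonempty) : sideSum k c ≠ 0 :=
  indep_of_list _ (covL_nodup j) k (covL_xs j k) c hc hne

lemma cov3_indep (j : Fin 3) (k : Fin 2) (c : Finset (Fin 11)) (hc : c ⊆ cov3 j)
    (hne : c.Nonempty) : sideSum k c ≠ 0 :=
  indep_of_list _ (cov3L_nodup j) k (cov3L_xs j k) c hc hne

end Pool.Agent.Lead.Ex633
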