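import Mathlib

set_option autoImplicit false

namespace Pool.Agent.Lead.InvPlane

/-- the 130 circles of the inversive plane of order five, as bit masks on 26 points -/
def L : List ℕ := [
  3372, 6744, 12465, 18054, 24899, 57896, 83056, 98885,
  107904, 134337, 168201, 174086, 196778, 215808, 268674, 296010,
  313361, 336402, 348172, 393556, 398880, 537348, 557362, 577728,
  592020, 594947, 664600, 671781, 787081, 796768, 1052774, 1124361,
  1213072, 1852672, 2105548, 2248722, 2425121, 2657792, 3146506, 3164320,
  3343364, 3452928, 3670097, 4211096, 4298784, 4465669, 4850242, 5245970,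
  5263873, 5382432, 5570752, 5799948, 6292020, 6296896, 6324355, 6686728,
  6905856, 8390417, 8597568, 8683684, 8931338, 9442440, 9461780, 9472320,
  9830403, 10027552, 10491909, 10495010, 10584088, 10764864, 11141504, 12583017,
  12593792, 12648710, 12764160, 13373456, 16779811, 16815124, 17195136, 17367368,
  17826181, 17835584, 17940482, 18087992, 18487296, 18884880, 18891785, 18944640,
  19038304, 19660806, 20983818, 20990020, 21168145, 21267200, 21496992, 25166034,
  25186592, 25297420, 25496576, 25731073, 33554463, 33555424, 33586176, 34570240,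
  34636833, 34672912, 34750536, 34867716, 35135618, 35700996, 35719234, 35791361,
  35914896, 36180008, 37789776, 37815816, 37884036, 38027298, 38275329, 41980418,
  42025089, 42076208, 42213640, 42468420, 50366600, 50405412, 50464002, 50597953,
  50872848, 66060288]

/-- the set with a given bit mask -/
def toSet (m : ℕ) : Finset (Fin 26) := Finset.univ.filter (fun i : Fin 26 => m.testBit i = true)

/-- number of points -/
def popc (m : ℕ) : ℕ := ((List.finRange 26).filter (fun i : Fin 26 => m.testBit i)).length

lemma card_toSet (m : ℕ) : (toSet m).card = popc m := by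
  unfold toSet popc
  have h : (Finset.univ : Finset (Fin 26)).val = ((List.finRange 26 : List (Fin 26)) :
    Multiset (Fin 26)) := rfl
  rw [Finset.card, Finset.filter_val, h, Multiset.filter_coe, Multiset.coe_card]
  congr 1
  apply List.filter_congr
  intro x _
  simp

lemma toSet_inter (a b : ℕ) : toSet a ∩ toSet b = toSet (a &&& b) := by
  ext i
  simp [toSet, Nat.testBit_and]

lemma L_length : L.length = 130 := by decide +kernel

lemma L_card : ∀ m ∈ L, popc m = 6 := by decide +kernel

lemma L_pair : L.Pairwise (fun a b => popc (a &&& b) ≤ 2) := by decide +kernel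

/-- the blocks -/
def Z : Finset (Finset (Fin 26)) := (L.map toSet).toFinset

lemma map_pair : (L.map toSet).Pairwise (fun A B => (A ∩ B).card ≤ 2) := by
  rw [List.pairwise_map]
  refine L_pair.imp ?_
  intro a b h
  rwa [toSet_inter, card_toSet]

lemma map_card : ∀ A ∈ L.map toSet, A.card = 6 := by
  intro A hA
  rw [List.mem_map] at hA
  obtain ⟨m, hm, rfl⟩ := hA
  rw [card_toSet]
  exact L_card m hm

lemma map_nodup : (L.map toSet).Nodup := by
  have h1 := map_card
  have h2 := map_pair
  rw [List.nodup_iff_pairwise_ne] 
  refine (h2.imp_of_mem ?_)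
  intro A B hA _ hAB hne
  subst hne
  rw [Finset.inter_self, h1 A hA] at hAB
  omega

lemma Z_card : Z.card = 130 := by
  unfold Z
  rw [List.toFinset_card_of_nodup map_nodup, List.length_map, L_length]

lemma Z_six : ∀ A ∈ Z, A.card = 6 := by
  intro A hA
  exact map_card A (by simpa [Z] using hA)

lemma Z_thin : ∀ A ∈ Z, ∀ B ∈ Z, A ≠ B → (A ∩ B).card ≤ 2 := by
  intro A hA B hB hne
  have : Std.Symm (fun A B : Finset (Fin 26) => (A ∩ B).card ≤ 2) :=
    { symm := fun a b h => by rw [Finset.inter_comm]; exact h }
  exact map_pair.forall (by simpa [Z] using hA) (by simpa [Z] using hB) hne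

end Pool.Agent.Lead.InvPlane
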