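import Mathlib

set_option autoImplicit false

namespace Pool.Agent.Lead.JumpEx

/-- strict down-sets of a seven-element poset, as bit masks -/
def dn : List ℕ := [0, 0, 1, 1, 3, 7, 13]

def lt' (x y : Fin 7) : Bool := (dn.getD y 0).testBit x

/-- the poset -/
def A : Type := Fin 7

instance : Fintype A := inferInstanceAs (Fintype (Fin 7))

lemma tr : ∀ x y z : Fin 7, lt' x y = true → lt' y z = true → lt' x z = true := by
  decide +kernel

lemma asym : ∀ x y : Fin 7, lt' x y = true → ¬ (y = x ∨ lt' y x = true) := by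
  decide +kernel

instance : PartialOrder A where
  le x y := x = y ∨ lt' x y = true
  lt x y := lt' x y = true
  le_refl x := Or.inl rfl
  le_trans x y z h1 h2 := by
    rcases h1 with rfl | h1
    · exact h2
    · rcases h2 with rfl | h2
      · exact Or.inr h1
      · exact Or.inr (tr _ _ _ h1 h2)
  lt_iff_le_not_ge x y := by
    constructor
    · intro h
      exact ⟨Or.inr h, asym _ _ h⟩
    · rintro ⟨h1 | h1, h2⟩
      · exact absurd (Or.inl h1.symm) h2
      · exact h1
  le_antisymm x y h1 h2 := by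
    rcases h1 with h1 | h1
    · exact h1
    · exact absurd h2 (asym _ _ h1)

/-- number of jumps of a list -/
def cnt (l : List (Fin 7)) : ℕ := (l.zip l.tail).countP (fun p => !lt' p.1 p.2)

def okb (x : Fin 7) (t : List (Fin 7)) : Bool := (!t.contains x) && t.all (fun y => !lt' y x)

lemma okb_of (x : Fin 7) (t : List (Fin 7)) (h1 : x ∉ t) (h2 : ∀ y ∈ t, lt' y x = false) :
    okb x t = true := by
  unfold okb
  simp only [Bool.and_eq_true, Bool.not_eq_true', List.all_eq_true]
  exact ⟨by simpa using h1, fun y hy => by rw [h2 y hy]⟩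

def chk : ℕ → List (Fin 7) → Bool
  | 0, t => decide (3 ≤ cnt t)
  | k + 1, t => (List.finRange 7).all (fun x => !okb x t || chk k (x :: t))

lemma chk_spec (k : ℕ) (t : List (Fin 7)) (h : chk (k + 1) t = true) (x : Fin 7)
    (hx : okb x t = true) : chk k (x :: t) = true := by
  unfold chk at h
  rw [List.all_eq_true] at h
  have := h x (List.mem_finRange x)
  rw [hx] at this
  simpa using this

lemma chk7 : chk 7 [] = true := by
  decide +kernel

lemma lb7 (a b c d e f g : Fin 7) (hf : okb f [g] = true) (he : okb e [f, g] = true)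
    (hd : okb d [e, f, g] = true) (hc : okb c [d, e, f, g] = true)
    (hb : okb b [c, d, e, f, g] = true) (ha : okb a [b, c, d, e, f, g] = true) :
    3 ≤ cnt [a, b, c, d, e, f, g] := by
  have hg : okb g [] = true := okb_of g [] (by simp) (by simp)
  have h := chk_spec _ _ (chk_spec _ _ (chk_spec _ _ (chk_spec _ _ (chk_spec _ _
    (chk_spec _ _ (chk_spec _ _ chk7 g hg) f hf) e he) d hd) c hc) b hb) a ha
  exact of_decide_eq_true h


/-- cheap linear extensions of the posets with one element removed -/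
def wit (x : Fin 7) : List (Fin 7) := ([[1, 4, 2, 5, 3, 6], [0, 2, 5, 3, 6, 4], [0, 3, 6, 1, 4, 5], [0, 2, 6, 1, 4, 5], [0, 2, 1, 5, 3, 6], [0, 2, 1, 4, 3, 6], [0, 3, 1, 4, 2, 5]] : List (List (Fin 7))).getD x []

lemma wit_spec : ∀ x : Fin 7, (wit x).Nodup ∧ (∀ y : Fin 7, y ∈ wit x ↔ y ≠ x) ∧
    (wit x).Pairwise (fun a b => lt' b a = false) ∧ cnt (wit x) = 2 := by
  decide +kernel

def wall : List (Fin 7) := [0, 1, 4, 2, 5, 3, 6]

lemma wall_spec : wall.Nodup ∧ (∀ y : Fin 7, y ∈ wall) ∧
    wall.Pairwise (fun a b => lt' b a = false) ∧ cnt wall = 3 := by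
  decide +kernel

end Pool.Agent.Lead.JumpEx
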